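import Mathlib

/-! Contraction of holomorphic maps which map a bounded set into itself with a margin
(Earle and Hamilton), in nonautonomous form, and attracting cycles. -/

set_option autoImplicit false

open Topology Filter Metric Set

namespace Pool.Agent.W739.PC

/-- nonautonomous composition `g (n-1) ∘ ... ∘ g 0` -/
def cmp {X : Type} (g : ℕ → X → X) : ℕ → X → X
  | 0 => id
  | n + 1 => fun z => g n (cmp g n z)

theorem cmp_zero {X : Type} (g : ℕ → X → X) (z : X) : cmp g 0 z = z := rfl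

theorem cmp_succ {X : Type} (g : ℕ → X → X) (n : ℕ) (z : X) :
    cmp g (n + 1) z = g n (cmp g n z) := rfl

theorem cmp_const {X : Type} (g : X → X) (n : ℕ) (z : X) :
    cmp (fun _ => g) n z = g^[n] z := by
  induction n with
  | zero => rfl
  | succ n ih => rw [cmp_succ, ih, Function.iterate_succ_apply']

/-- Data of a nonautonomous system with margin `η`. -/
structure Marg (O : ℕ → Set ℂ) (g : ℕ → ℂ → ℂ) (R η : ℝ) : Prop where
  hR : 0 < R
  hη : 0 < η
  sub : ∀ n, O n ⊆ closedBall 0 R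
  dif : ∀ n, ∀ ζ ∈ O n, DifferentiableAt ℂ (g n) ζ
  mar : ∀ n, ∀ ζ ∈ O n, ∀ s : ℂ, ‖s‖ < η → g n ζ + s ∈ O (n + 1)

namespace Marg

variable {O : ℕ → Set ℂ} {g : ℕ → ℂ → ℂ} {R η : ℝ}

theorem map (h : Marg O g R η) (n : ℕ) {ζ : ℂ} (hζ : ζ ∈ O n) : g n ζ ∈ O (n + 1) := by
  have := h.mar n ζ hζ 0 (by simpa using h.hη)
  simpa using this

theorem cmp_mem (h : Marg O g R η) {ζ : ℂ} (hζ : ζ ∈ O 0) (n : ℕ) : cmp g n ζ ∈ O n := by
  induction n with
  | zero => exact hζ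
  | succ n ih => exact h.map n ih

theorem cmp_diff (h : Marg O g R η) {ζ : ℂ} (hζ : ζ ∈ O 0) (n : ℕ) :
    DifferentiableAt ℂ (cmp g n) ζ := by
  induction n with
  | zero => exact differentiableAt_id
  | succ n ih => exact DifferentiableAt.comp ζ (h.dif n _ (h.cmp_mem hζ n)) ih

theorem deriv_le (h : Marg O g R η) {ζ₀ : ℂ} {ρ : ℝ} (hρ : 0 < ρ) (hb : ball ζ₀ ρ ⊆ O 0) (n : ℕ) :
    ‖deriv (cmp g n) ζ₀‖ ≤ (3 * R / ρ) * ((1 + η / (4 * R))⁻¹) ^ n := by
  have hR := h.hR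
  have hη := h.hη
  set θ : ℝ := η / (4 * R) with hθ
  have hθ0 : 0 < θ := by positivity
  have h0 : ζ₀ ∈ O 0 := hb (mem_ball_self hρ)
  -- the modified composition
  set H : ℕ → ℂ → ℂ := cmp (fun n ζ => g n ζ + θ * (g n ζ - cmp g (n + 1) ζ₀)) with hH
  have Hs : ∀ n ζ, H (n + 1) ζ = g n (H n ζ) + θ * (g n (H n ζ) - cmp g (n + 1) ζ₀) :=
    fun n ζ => rfl
  have hHO : ∀ n, ∀ ζ ∈ ball ζ₀ ρ, H n ζ ∈ O n := by
    intro n
    induction n with
    | zero => intro ζ hζ; exact hb hζ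
    | succ n ih =>
      intro ζ hζ
      rw [Hs]
      apply h.mar n _ (ih ζ hζ)
      have e1 := h.sub _ (h.map n (ih ζ hζ))
      have e2 := h.sub _ (h.cmp_mem h0 (n + 1))
      rw [mem_closedBall_zero_iff] at e1 e2
      rw [norm_mul, Complex.norm_real, Real.norm_eq_abs, abs_of_pos hθ0]
      calc θ * ‖g n (H n ζ) - cmp g (n + 1) ζ₀‖ ≤ θ * (R + R) := by
            gcongr
            exact (norm_sub_le _ _).trans (add_le_add e1 e2)
        _ = η / 2 := by rw [hθ]; field_simp; ring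
        _ < η := by linarith
  have hH0 : ∀ n, H n ζ₀ = cmp g n ζ₀ := by
    intro n
    induction n with
    | zero => rfl
    | succ n ih => rw [Hs, ih, cmp_succ, sub_self, mul_zero, add_zero]
  have hHd : ∀ n, ∀ ζ ∈ ball ζ₀ ρ, DifferentiableAt ℂ (H n) ζ := by
    intro n
    induction n with
    | zero => intro ζ _; exact differentiableAt_id
    | succ n ih =>
      intro ζ hζ
      have e1 : DifferentiableAt ℂ (fun ζ => g n (H n ζ)) ζ :=
        DifferentiableAt.comp ζ (h.dif n _ (hHO n ζ hζ)) (ih ζ hζ)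
      have e2 : H (n + 1) = fun ζ => g n (H n ζ) + θ * (g n (H n ζ) - cmp g (n + 1) ζ₀) := rfl
      rw [e2]
      exact e1.add ((e1.sub_const _).const_mul _)
  have hder : ∀ n, deriv (H n) ζ₀ = (1 + θ) ^ n * deriv (cmp g n) ζ₀ := by
    intro n
    induction n with
    | zero => rw [pow_zero, one_mul]; rfl
    | succ n ih =>
      have hz := mem_ball_self hρ (x := ζ₀)
      have e0 : DifferentiableAt ℂ (g n) (H n ζ₀) := h.dif n _ (hHO n ζ₀ hz)
      have e1 : HasDerivAt (fun ζ => g n (H n ζ)) (deriv (g n) (H n ζ₀) * deriv (H n) ζ₀) ζ₀ :=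
        e0.hasDerivAt.comp ζ₀ (hHd n ζ₀ hz).hasDerivAt
      have e2 : H (n + 1) = fun ζ => g n (H n ζ) + θ * (g n (H n ζ) - cmp g (n + 1) ζ₀) := rfl
      have e3 : HasDerivAt (H (n + 1)) (deriv (g n) (H n ζ₀) * deriv (H n) ζ₀ +
          θ * (deriv (g n) (H n ζ₀) * deriv (H n) ζ₀)) ζ₀ := by
        rw [e2]
        exact e1.add ((e1.sub_const _).const_mul _)
      have e4 : HasDerivAt (cmp g (n + 1)) (deriv (g n) (cmp g n ζ₀) * deriv (cmp g n) ζ₀) ζ₀ := by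
        have e5 : DifferentiableAt ℂ (g n) (cmp g n ζ₀) := h.dif n _ (h.cmp_mem h0 n)
        exact e5.hasDerivAt.comp ζ₀ (h.cmp_diff h0 n).hasDerivAt
      rw [e3.deriv, e4.deriv, ih, hH0]
      ring
  have hbound : ‖deriv (H n) ζ₀‖ ≤ 3 * R / ρ := by
    apply Complex.norm_deriv_le_div_of_mapsTo_ball (f := H n)
    · intro ζ hζ
      exact (hHd n ζ hζ).differentiableWithinAt
    · intro ζ hζ
      have e1 := h.sub _ (hHO n ζ hζ)
      have e2 := h.sub _ (hHO n ζ₀ (mem_ball_self hρ))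
      rw [mem_closedBall_zero_iff] at e1 e2
      rw [mem_closedBall, dist_eq_norm]
      calc ‖H n ζ - H n ζ₀‖ ≤ R + R := (norm_sub_le _ _).trans (add_le_add e1 e2)
        _ ≤ 3 * R := by linarith
    · exact hρ
  rw [hder, norm_mul, norm_pow] at hbound
  have e1 : ‖((1 : ℂ) + (θ : ℂ))‖ = 1 + θ := by
    rw [← Complex.ofReal_one, ← Complex.ofReal_add, Complex.norm_real, Real.norm_eq_abs,
      abs_of_pos (by linarith)]
  rw [e1] at hbound
  rw [inv_pow, ← div_eq_mul_inv, le_div_iff₀ (by positivity)]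
  linarith

/-- the contraction on balls -/
theorem dist_le (h : Marg O g R η) {ζ₀ : ℂ} {ρ : ℝ} (hρ : 0 < ρ) (hb : ball ζ₀ ρ ⊆ O 0) (n : ℕ)
    {ζ ζ' : ℂ} (hζ : ζ ∈ ball ζ₀ (ρ / 2)) (hζ' : ζ' ∈ ball ζ₀ (ρ / 2)) :
    ‖cmp g n ζ - cmp g n ζ'‖ ≤ (6 * R / ρ) * ((1 + η / (4 * R))⁻¹) ^ n * ‖ζ - ζ'‖ := by
  have hR := h.hR
  have hη := h.hη
  have hsub : ∀ w ∈ ball ζ₀ (ρ / 2), ball w (ρ / 2) ⊆ O 0 := by
    intro w hw
    refine Subset.trans ?_ hb
    intro v hv
    rw [mem_ball] at *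
    linarith [dist_triangle v w ζ₀]
  have hd : ∀ w ∈ ball ζ₀ (ρ / 2), DifferentiableAt ℂ (cmp g n) w := by
    intro w hw
    exact h.cmp_diff (hsub w hw (mem_ball_self (by positivity))) n
  have hbd : ∀ w ∈ ball ζ₀ (ρ / 2),
      ‖deriv (cmp g n) w‖ ≤ (6 * R / ρ) * ((1 + η / (4 * R))⁻¹) ^ n := by
    intro w hw
    have := h.deriv_le (ρ := ρ / 2) (by positivity) (hsub w hw) n
    have e : 3 * R / (ρ / 2) = 6 * R / ρ := by field_simp; ring
    rwa [e] at this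
  exact (convex_ball ζ₀ (ρ / 2)).norm_image_sub_le_of_norm_deriv_le hd hbd hζ' hζ

end Marg

/-- Data of an autonomous system with margin `η`. -/
structure Trap (W : Set ℂ) (g : ℂ → ℂ) (R η : ℝ) : Prop where
  hR : 0 < R
  hη : 0 < η
  sub : W ⊆ closedBall 0 R
  dif : ∀ ζ ∈ W, DifferentiableAt ℂ g ζ
  mar : ∀ ζ ∈ W, ∀ s : ℂ, ‖s‖ < η → g ζ + s ∈ W

namespace Trap

variable {W : Set ℂ} {g : ℂ → ℂ} {R η : ℝ}

theorem marg (h : Trap W g R η) : Marg (fun _ => W) (fun _ => g) R η :=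
  ⟨h.hR, h.hη, fun _ => h.sub, fun _ => h.dif, fun _ => h.mar⟩

theorem map (h : Trap W g R η) {ζ : ℂ} (hζ : ζ ∈ W) : g ζ ∈ W := h.marg.map 0 hζ

theorem iter_mem (h : Trap W g R η) {ζ : ℂ} (hζ : ζ ∈ W) (n : ℕ) : g^[n] ζ ∈ W := by
  have := h.marg.cmp_mem hζ n
  rwa [cmp_const] at this

theorem iter_diff (h : Trap W g R η) {ζ : ℂ} (hζ : ζ ∈ W) (n : ℕ) :
    DifferentiableAt ℂ (g^[n]) ζ := by
  have := h.marg.cmp_diff hζ n
  have e : cmp (fun _ => g) n = g^[n] := funext fun z => cmp_const g n z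
  rwa [e] at this

theorem ball_sub (h : Trap W g R η) {ζ : ℂ} (hζ : ζ ∈ W) (n : ℕ) :
    ball (g^[n + 1] ζ) η ⊆ W := by
  intro w hw
  have h1 := h.mar _ (h.iter_mem hζ n) (w - g^[n + 1] ζ) (by
    rwa [mem_ball, dist_eq_norm] at hw)
  rw [← Function.iterate_succ_apply' g n ζ] at h1
  simpa using h1

/-- attracting periodic points -/
structure Att (W : Set ℂ) (g : ℂ → ℂ) (q : ℕ) (r : ℝ) (a : ℂ) : Prop where
  mem : a ∈ W
  sub : ball a r ⊆ W
  per : g^[q] a = a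
  mul : ‖deriv (g^[q]) a‖ < 1
  att : ∀ ζ ∈ ball a r, Tendsto (fun k : ℕ => g^[q * k] ζ) atTop (𝓝 a)

theorem exists_att (h : Trap W g R η) {ζ₀ : ℂ} (hζ₀ : ζ₀ ∈ W) :
    ∃ (q : ℕ) (a : ℂ), 0 < q ∧ Tendsto (fun k : ℕ => g^[q * k] ζ₀) atTop (𝓝 a) ∧
      ∀ j : ℕ, Att W g q (η / 2) (g^[j] a) := by
  have hR := h.hR
  have hη := h.hη
  set lam : ℝ := (1 + η / (4 * R))⁻¹ with hlam
  have hpos : 0 < η / (4 * R) := by positivity
  have hl0 : 0 < lam := by positivity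
  have hl1 : lam < 1 := inv_lt_one_of_one_lt₀ (by linarith)
  -- contraction after a long time
  obtain ⟨N₀, hN₀⟩ : ∃ N₀ : ℕ, ∀ n ≥ N₀, (6 * R / η) * lam ^ n ≤ 1 / 4 := by
    have h1 : Tendsto (fun n : ℕ => (6 * R / η) * lam ^ n) atTop (𝓝 ((6 * R / η) * 0)) :=
      (tendsto_pow_atTop_nhds_zero_of_lt_one hl0.le hl1).const_mul _
    rw [mul_zero] at h1
    have h2 := h1.eventually (Iic_mem_nhds (show (0 : ℝ) < 1 / 4 by norm_num))
    exact eventually_atTop.1 h2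
  have hcon : ∀ w : ℂ, ball w η ⊆ W → ∀ n ≥ N₀, ∀ ζ ∈ ball w (η / 2), ∀ ζ' ∈ ball w (η / 2),
      ‖g^[n] ζ - g^[n] ζ'‖ ≤ 1 / 4 * ‖ζ - ζ'‖ := by
    intro w hw n hn ζ hζ ζ' hζ'
    have h1 := h.marg.dist_le hη hw n hζ hζ'
    rw [cmp_const, cmp_const] at h1
    exact h1.trans (mul_le_mul_of_nonneg_right (hN₀ n hn) (norm_nonneg _))
  have hder : ∀ w : ℂ, ball w η ⊆ W → ∀ n ≥ N₀, ‖deriv (g^[n]) w‖ ≤ 1 / 4 := by
    intro w hw n hn
    have h1 := h.marg.deriv_le hη hw n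
    have e : cmp (fun _ => g) n = g^[n] := funext fun z => cmp_const g n z
    rw [e] at h1
    refine h1.trans (le_trans ?_ (hN₀ n hn))
    gcongr
    norm_num
  -- a close return
  obtain ⟨y, -, φ, hφ, hlim⟩ := (isCompact_closedBall (0 : ℂ) R).tendsto_subseq
    (x := fun n : ℕ => g^[n] ζ₀) (fun n => h.sub (h.iter_mem hζ₀ n))
  obtain ⟨i₀, hi₀⟩ := Metric.tendsto_atTop.1 hlim (η / 16) (by positivity)
  set k₁ : ℕ := φ (i₀ + 1) with hk₁
  have hk₁1 : 1 ≤ k₁ := by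
    have h1 : i₀ + 1 ≤ φ (i₀ + 1) := hφ.id_le (i₀ + 1)
    omega
  set i₂ : ℕ := i₀ + 1 + k₁ + N₀ + 1 with hi₂
  set k₂ : ℕ := φ i₂ with hk₂
  have hk₂' : i₂ ≤ k₂ := hφ.id_le i₂
  obtain ⟨q, hq⟩ : ∃ q, k₂ = k₁ + q := ⟨k₂ - k₁, by omega⟩
  have hqN : N₀ ≤ q := by omega
  have hq0 : 0 < q := by omega
  set c : ℂ := g^[k₁] ζ₀ with hc
  have hcW : ball c η ⊆ W := by
    obtain ⟨m, hm⟩ : ∃ m, k₁ = m + 1 := ⟨k₁ - 1, by omega⟩
    rw [hc, hm]
    exact h.ball_sub hζ₀ m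
  have hqc : g^[q] c = g^[k₂] ζ₀ := by
    rw [hc, ← Function.iterate_add_apply, hq, add_comm]
  have hret : ‖g^[q] c - c‖ < η / 8 := by
    have h1 := hi₀ i₂ (by omega)
    have h2 := hi₀ (i₀ + 1) (by omega)
    rw [hqc, ← dist_eq_norm]
    calc dist (g^[k₂] ζ₀) c ≤ dist (g^[k₂] ζ₀) y + dist c y := dist_triangle_right _ _ _
      _ < η / 16 + η / 16 := add_lt_add h1 h2
      _ = η / 8 := by ring
  -- the fixed point
  have hmaps : MapsTo (g^[q]) (closedBall c (η / 4)) (closedBall c (η / 4)) := by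
    intro ζ hζ
    have hζ' : ζ ∈ ball c (η / 2) := by
      rw [mem_closedBall] at hζ; rw [mem_ball]; linarith
    have h1 := hcon c hcW q hqN ζ hζ' c (mem_ball_self (by positivity))
    rw [mem_closedBall, dist_eq_norm] at hζ
    rw [mem_closedBall, dist_eq_norm]
    calc ‖g^[q] ζ - c‖ = ‖(g^[q] ζ - g^[q] c) + (g^[q] c - c)‖ := by ring_nf
      _ ≤ ‖g^[q] ζ - g^[q] c‖ + ‖g^[q] c - c‖ := norm_add_le _ _
      _ ≤ η / 4 := by linarith
  have hsubb : closedBall c (η / 4) ⊆ ball c (η / 2) := closedBall_subset_ball (by linarith)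
  have hcontr : ContractingWith (1 / 4) (hmaps.restrict (g^[q]) _ _) := by
    refine ⟨by norm_num [← NNReal.coe_lt_coe], LipschitzWith.of_dist_le_mul ?_⟩
    rintro ⟨x, hx⟩ ⟨x', hx'⟩
    have h1 := hcon c hcW q hqN x (hsubb hx) x' (hsubb hx')
    rw [Subtype.dist_eq, Subtype.dist_eq, dist_eq_norm, dist_eq_norm]
    simpa using h1
  have hcmem : c ∈ closedBall c (η / 4) := mem_closedBall_self (by positivity)
  obtain ⟨a₀, ha₀, hfix, htend, -⟩ := hcontr.exists_fixedPoint'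
    (isClosed_closedBall.isComplete) hmaps hcmem (edist_ne_top _ _)
  have hfix' : g^[q] a₀ = a₀ := hfix
  have ha₀W : a₀ ∈ W := hcW (ball_subset_ball (by linarith) (hsubb ha₀))
  have hqk : ∀ (k : ℕ) (ζ : ℂ), (g^[q])^[k] ζ = g^[q * k] ζ := fun k ζ => by
    rw [Function.iterate_mul]
  have htend' : Tendsto (fun k : ℕ => g^[q * k] c) atTop (𝓝 a₀) := by
    refine htend.congr fun k => ?_
    rw [hqk]
  -- all points of the cycle are attracting
  have hcyc : ∀ j : ℕ, g^[q] (g^[j] a₀) = g^[j] a₀ := by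
    intro j
    rw [← Function.iterate_add_apply, add_comm, Function.iterate_add_apply, hfix']
  have hAtt : ∀ j : ℕ, Att W g q (η / 2) (g^[j] a₀) := by
    intro j
    have hm : ball (g^[j] a₀) η ⊆ W := by
      have h1 := h.ball_sub ha₀W (j + q - 1)
      have e : j + q - 1 + 1 = q + j := by omega
      rwa [e, Function.iterate_add_apply, hcyc] at h1
    refine ⟨hm (mem_ball_self hη), (ball_subset_ball (by linarith)).trans hm, hcyc j, ?_, ?_⟩
    · linarith [hder _ hm q hqN]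
    · intro ζ hζ
      set b := g^[j] a₀ with hb
      have hk : ∀ k : ℕ, ‖g^[q * k] ζ - b‖ ≤ (1 / 4) ^ k * (η / 2) := by
        intro k
        induction k with
        | zero =>
          rw [mul_zero, Function.iterate_zero_apply, pow_zero, one_mul, ← dist_eq_norm]
          exact (mem_ball.1 hζ).le
        | succ k ih =>
          have e1 : g^[q * (k + 1)] ζ = g^[q] (g^[q * k] ζ) := by
            rw [← Function.iterate_add_apply, mul_add, mul_one, add_comm]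
          have e2 : g^[q * k] ζ ∈ ball b (η / 2) := by
            rcases Nat.eq_zero_or_pos k with rfl | hkp
            · simpa using hζ
            · rw [mem_ball, dist_eq_norm]
              refine ih.trans_lt ?_
              have : (1 / 4 : ℝ) ^ k < 1 := pow_lt_one₀ (by norm_num) (by norm_num) (by omega)
              nlinarith
          have e3 := hcon b hm q hqN _ e2 b (mem_ball_self (by positivity))
          rw [hcyc j] at e3
          rw [e1]
          calc ‖g^[q] (g^[q * k] ζ) - b‖ ≤ 1 / 4 * ‖g^[q * k] ζ - b‖ := e3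
            _ ≤ 1 / 4 * ((1 / 4) ^ k * (η / 2)) := by gcongr
            _ = (1 / 4) ^ (k + 1) * (η / 2) := by ring
      rw [tendsto_iff_norm_sub_tendsto_zero]
      refine squeeze_zero (fun _ => norm_nonneg _) hk ?_
      have := (tendsto_pow_atTop_nhds_zero_of_lt_one (r := (1 / 4 : ℝ)) (by norm_num)
        (by norm_num)).mul_const (η / 2)
      simpa using this
  refine ⟨q, g^[k₁ * (q - 1)] a₀, hq0, ?_, ?_⟩
  · have h1 : Tendsto (fun k : ℕ => g^[k₁ * (q - 1)] (g^[q * k] c)) atTop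
        (𝓝 (g^[k₁ * (q - 1)] a₀)) :=
      (h.iter_diff ha₀W (k₁ * (q - 1))).continuousAt.tendsto.comp htend'
    have h2 : Tendsto (fun k : ℕ => g^[q * (k + k₁)] ζ₀) atTop (𝓝 (g^[k₁ * (q - 1)] a₀)) := by
      refine h1.congr fun k => ?_
      rw [hc, ← Function.iterate_add_apply, ← Function.iterate_add_apply]
      congr 2
      obtain ⟨q', rfl⟩ : ∃ q', q = q' + 1 := ⟨q - 1, by omega⟩
      simp only [Nat.add_sub_cancel]
      ring
    exact (tendsto_add_atTop_iff_nat (f := fun k : ℕ => g^[q * k] ζ₀) k₁).1 h2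
  · intro j
    have := hAtt (j + k₁ * (q - 1))
    rwa [Function.iterate_add_apply] at this

end Trap

end Pool.Agent.W739.PC
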