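import Mathlib
import Pool.Agent.W739.PC.EH

/-! Exponential decay of the measure of the sequences of maps for which a point is not absorbed. -/

set_option autoImplicit false
set_option linter.unusedSectionVars false

open Topology Filter Set MeasureTheory
open scoped ENNReal

namespace Pool.Agent.W739.PC

theorem cmp_add {X : Type} (g : ℕ → X → X) (i n : ℕ) (z : X) :
    cmp g (i + n) z = cmp (fun k => g (k + i)) n (cmp g i z) := by
  induction n with
  | zero => rfl
  | succ n ih => rw [← add_assoc, cmp_succ, cmp_succ, ih, add_comm i n]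

theorem cmp_congr {X : Type} {g g' : ℕ → X → X} {n : ℕ} (h : ∀ k < n, g k = g' k) (z : X) :
    cmp g n z = cmp g' n z := by
  induction n with
  | zero => rfl
  | succ n ih => rw [cmp_succ, cmp_succ, ih fun k hk => h k (by omega), h n (by omega)]

theorem cmp_head {X : Type} (g : ℕ → X → X) (n : ℕ) (z : X) :
    cmp g (n + 1) z = cmp (fun k => g (k + 1)) n (g 0 z) := by
  rw [add_comm, cmp_add]; rfl

/-- absorbed points stay absorbed -/
theorem cmp_abs {X : Type} {g : ℕ → X → X} {U : Set X} (h : ∀ k, ∀ z ∈ U, g k z ∈ U) {z : X}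
    (hz : z ∈ U) (n : ℕ) : cmp g n z ∈ U := by
  induction n with
  | zero => exact hz
  | succ n ih => exact h n _ ih

theorem cmp_abs_le {X : Type} {g : ℕ → X → X} {U : Set X} (h : ∀ k, ∀ z ∈ U, g k z ∈ U) {z : X}
    {m n : ℕ} (hmn : m ≤ n) (hz : cmp g m z ∈ U) : cmp g n z ∈ U := by
  obtain ⟨k, rfl⟩ := Nat.exists_eq_add_of_le hmn
  rw [cmp_add]
  exact cmp_abs (fun k z hz => h (k + m) z hz) hz k

variable {E X : Type}

/-- the position after the steps `ω 0, ..., ω (n - 1)` -/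
def orbF (st : E → X → X) : (n : ℕ) → (Fin n → E) → X → X
  | 0, _, z => z
  | n + 1, ω, z => orbF st n (Fin.tail ω) (st (ω 0) z)

theorem orbF_eq (st : E → X → X) (n : ℕ) (ω : Fin n → E) (a : ℕ → E)
    (h : ∀ (k : ℕ) (hk : k < n), a k = ω ⟨k, hk⟩) (z : X) :
    orbF st n ω z = cmp (fun k => st (a k)) n z := by
  induction n generalizing a z with
  | zero => rfl
  | succ n ih =>
    rw [cmp_head]
    show orbF st n (Fin.tail ω) (st (ω 0) z) = _
    rw [ih (Fin.tail ω) (fun k => a (k + 1)) (fun k hk => h (k + 1) (by omega))]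
    rw [h 0 (by omega)]
    rfl

section meas

variable [TopologicalSpace E] [TopologicalSpace X]

theorem orbF_continuous {st : E → X → X} (hst : Continuous fun p : E × X => st p.1 p.2) (n : ℕ) :
    Continuous fun p : (Fin n → E) × X => orbF st n p.1 p.2 := by
  induction n with
  | zero => exact continuous_snd
  | succ n ih =>
    have h1 : Continuous fun p : (Fin (n + 1) → E) × X =>
        ((Fin.tail p.1, st (p.1 0) p.2) : (Fin n → E) × X) := by
      apply Continuous.prodMk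
      · exact continuous_pi fun i => (continuous_apply i.succ).comp continuous_fst
      · have h2 : Continuous fun p : (Fin (n + 1) → E) × X => ((p.1 0, p.2) : E × X) :=
          ((continuous_apply 0).comp continuous_fst).prodMk continuous_snd
        exact hst.comp h2
    exact ih.comp h1

variable [MeasurableSpace E] [BorelSpace E] [SecondCountableTopology E]
  (μ : Measure E) [IsFiniteMeasure μ] (st : E → X → X) (U : Set X)

/-- the measure of the sequences of length `n` for which `z` is not absorbed -/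
noncomputable def gB (n : ℕ) (z : X) : ℝ≥0∞ :=
  (Measure.pi fun _ : Fin n => μ) {ω | orbF st n ω z ∉ U}

variable {μ st U}

theorem isClosed_bad (hst : Continuous fun p : E × X => st p.1 p.2) (hU : IsOpen U) (n : ℕ)
    (z : X) : IsClosed {ω : Fin n → E | orbF st n ω z ∉ U} := by
  have h1 : Continuous fun ω : Fin n → E => orbF st n ω z :=
    (orbF_continuous hst n).comp (continuous_id.prodMk continuous_const)
  exact (hU.preimage h1).isClosed_compl

theorem gB_succ (hst : Continuous fun p : E × X => st p.1 p.2) (hU : IsOpen U) (n : ℕ) (z : X) :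
    gB μ st U (n + 1) z = ∫⁻ q, gB μ st U n (st q z) ∂μ := by
  have h1 := measurePreserving_piFinSuccAbove (fun _ : Fin (n + 1) => μ) 0
  set S : Set (E × (Fin n → E)) := {p | orbF st n p.2 (st p.1 z) ∉ U} with hS
  have hSc : IsClosed S := by
    have h2 : Continuous fun p : E × (Fin n → E) => orbF st n p.2 (st p.1 z) := by
      have h3 : Continuous fun p : E × (Fin n → E) => ((p.2, st p.1 z) : (Fin n → E) × X) :=
        continuous_snd.prodMk (hst.comp (continuous_fst.prodMk continuous_const))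
      exact (orbF_continuous hst n).comp h3
    exact (hU.preimage h2).isClosed_compl
  have h4 : {ω : Fin (n + 1) → E | orbF st (n + 1) ω z ∉ U} =
      (MeasurableEquiv.piFinSuccAbove (fun _ : Fin (n + 1) => E) 0) ⁻¹' S := by
    ext ω
    simp only [mem_ofPred_eq, mem_preimage, hS]
    rfl
  unfold gB
  rw [h4, h1.measure_preimage hSc.measurableSet.nullMeasurableSet,
    Measure.prod_apply hSc.measurableSet]
  rfl

theorem gB_zero_of_mem (hst : Continuous fun p : E × X => st p.1 p.2) (hU : IsOpen U)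
    (habs : ∀ᵐ q ∂μ, ∀ z ∈ U, st q z ∈ U) (n : ℕ) {z : X} (hz : z ∈ U) :
    gB μ st U n z = 0 := by
  induction n generalizing z with
  | zero =>
    unfold gB
    have : {ω : Fin 0 → E | orbF st 0 ω z ∉ U} = ∅ := by
      ext ω
      simp only [mem_ofPred_eq, mem_empty_iff_false, iff_false, not_not]
      exact hz
    rw [this, measure_empty]
  | succ n ih =>
    rw [gB_succ hst hU, lintegral_eq_zero_of_ae_eq_zero]
    filter_upwards [habs] with q hq
    exact ih (hq z hz)

theorem gB_le_univ (n : ℕ) (z : X) : gB μ st U n z ≤ μ univ ^ n := by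
  unfold gB
  refine (measure_mono (subset_univ _)).trans_eq ?_
  rw [Measure.pi_univ]
  simp

theorem gB_add (hst : Continuous fun p : E × X => st p.1 p.2) (hU : IsOpen U)
    (habs : ∀ᵐ q ∂μ, ∀ z ∈ U, st q z ∈ U) {X₀ : Set X} (hinv : ∀ᵐ q ∂μ, ∀ z ∈ X₀, st q z ∈ X₀)
    {N : ℕ} {κ : ℝ≥0∞} (hκ : κ ≠ ⊤)
    (hN : ∀ z ∈ X₀, gB μ st U N z ≤ κ) (n : ℕ) {z : X} (hz₀ : z ∈ X₀) :
    gB μ st U (n + N) z ≤ κ * gB μ st U n z := by
  induction n generalizing z with
  | zero =>
    rw [zero_add]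
    by_cases hz : z ∈ U
    · rw [gB_zero_of_mem hst hU habs N hz]
      exact zero_le
    · have h0 : gB μ st U 0 z = 1 := by
        unfold gB
        have : {ω : Fin 0 → E | orbF st 0 ω z ∉ U} = univ := by
          ext ω
          simp only [mem_ofPred_eq, mem_univ, iff_true]
          exact hz
        rw [this, Measure.pi_univ]
        simp
      rw [h0, mul_one]
      exact hN z hz₀
  | succ n ih =>
    rw [show n + 1 + N = (n + N) + 1 by omega, gB_succ hst hU, gB_succ hst hU,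
      ← lintegral_const_mul' _ _ hκ]
    refine lintegral_mono_ae ?_
    filter_upwards [hinv] with q hq
    exact ih (hq z hz₀)

theorem gB_decay (hst : Continuous fun p : E × X => st p.1 p.2) (hU : IsOpen U)
    (habs : ∀ᵐ q ∂μ, ∀ z ∈ U, st q z ∈ U) {X₀ : Set X} (hinv : ∀ᵐ q ∂μ, ∀ z ∈ X₀, st q z ∈ X₀)
    {N : ℕ} (hN0 : 0 < N) {κ : ℝ≥0∞} (hκ : κ ≠ ⊤)
    (hN : ∀ z ∈ X₀, gB μ st U N z ≤ κ * μ univ ^ N) (n : ℕ) {z : X} (hz₀ : z ∈ X₀) :
    gB μ st U n z ≤ κ ^ (n / N) * μ univ ^ n := by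
  induction n using Nat.strong_induction_on generalizing z with
  | _ n ih =>
    rcases lt_or_ge n N with h | h
    · rw [Nat.div_eq_of_lt h, pow_zero, one_mul]
      exact gB_le_univ n z
    · obtain ⟨m, rfl⟩ := Nat.exists_eq_add_of_le' h
      have hfin : κ * μ univ ^ N ≠ ⊤ :=
        ENNReal.mul_ne_top hκ (ENNReal.pow_ne_top (measure_ne_top μ univ))
      have h1 := gB_add hst hU habs hinv hfin hN m hz₀
      have h2 := ih m (by omega) hz₀
      calc gB μ st U (m + N) z ≤ κ * μ univ ^ N * gB μ st U m z := h1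
        _ ≤ κ * μ univ ^ N * (κ ^ (m / N) * μ univ ^ m) := by gcongr
        _ = κ ^ ((m + N) / N) * μ univ ^ (m + N) := by
          rw [Nat.add_div_right m hN0, pow_succ, pow_add]
          ring

/-- rotation of the indices -/
theorem gB_rot (hst : Continuous fun p : E × X => st p.1 p.2) (hU : IsOpen U) (m : ℕ)
    (e : Equiv.Perm (Fin m)) (z : X) :
    (Measure.pi fun _ : Fin m => μ) {ω | orbF st m (ω ∘ e) z ∉ U} = gB μ st U m z := by
  have h1 := measurePreserving_piCongrLeft (fun _ : Fin m => μ) e.symm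
  have h2 : {ω : Fin m → E | orbF st m (ω ∘ e) z ∉ U} =
      (MeasurableEquiv.piCongrLeft (fun _ : Fin m => E) e.symm) ⁻¹' {ω | orbF st m ω z ∉ U} := by
    ext ω
    simp only [mem_ofPred_eq, mem_preimage]
    have h3 : (MeasurableEquiv.piCongrLeft (fun _ : Fin m => E) e.symm) ω = ω ∘ e := by
      funext i
      have := MeasurableEquiv.piCongrLeft_apply_apply (β := fun _ : Fin m => E) e.symm ω (e i)
      simpa using this
    rw [h3]
  rw [h2]
  exact h1.measure_preimage (isClosed_bad hst hU m z).measurableSet.nullMeasurableSet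

/-- Union bound over the starting times and the marked points. -/
theorem bad_le (hst : Continuous fun p : E × X => st p.1 p.2) (hU : IsOpen U)
    (habs : ∀ᵐ q ∂μ, ∀ z ∈ U, st q z ∈ U) {X₀ : Set X} (hinv : ∀ᵐ q ∂μ, ∀ z ∈ X₀, st q z ∈ X₀)
    {N : ℕ} (hN0 : 0 < N) {κ : ℝ≥0∞} (hκ : κ ≠ ⊤)
    (hN : ∀ z ∈ X₀, gB μ st U N z ≤ κ * μ univ ^ N) (Cr : Finset X) (hCr : ∀ c ∈ Cr, c ∈ X₀)
    (p : ℕ) :
    (Measure.pi fun _ : Fin (p + 1) => μ) {ω | ∃ i : Fin (p + 1), ∃ c ∈ Cr,
      orbF st (p + 1) (ω ∘ Equiv.addRight i) c ∉ U} ≤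
      (p + 1) * Cr.card * κ ^ ((p + 1) / N) * μ univ ^ (p + 1) := by
  have h1 : {ω : Fin (p + 1) → E | ∃ i : Fin (p + 1), ∃ c ∈ Cr,
      orbF st (p + 1) (ω ∘ Equiv.addRight i) c ∉ U} =
      ⋃ i ∈ (Finset.univ : Finset (Fin (p + 1))), ⋃ c ∈ Cr,
        {ω | orbF st (p + 1) (ω ∘ Equiv.addRight i) c ∉ U} := by
    ext ω
    simp
  rw [h1]
  refine (measure_biUnion_finset_le _ _).trans ?_
  have h2 : ∀ i ∈ (Finset.univ : Finset (Fin (p + 1))), (Measure.pi fun _ : Fin (p + 1) => μ)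
      (⋃ c ∈ Cr, {ω | orbF st (p + 1) (ω ∘ Equiv.addRight i) c ∉ U}) ≤
      Cr.card * (κ ^ ((p + 1) / N) * μ univ ^ (p + 1)) := by
    intro i _
    refine (measure_biUnion_finset_le _ _).trans ?_
    have h3 : ∀ c ∈ Cr, (Measure.pi fun _ : Fin (p + 1) => μ)
        {ω | orbF st (p + 1) (ω ∘ Equiv.addRight i) c ∉ U} ≤
        κ ^ ((p + 1) / N) * μ univ ^ (p + 1) := by
      intro c hc
      rw [gB_rot hst hU]
      exact gB_decay hst hU habs hinv hN0 hκ hN _ (hCr c hc)
    refine (Finset.sum_le_card_nsmul _ _ _ h3).trans ?_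
    rw [nsmul_eq_mul]
  refine (Finset.sum_le_card_nsmul _ _ _ h2).trans ?_
  rw [nsmul_eq_mul, Finset.card_univ, Fintype.card_fin]
  push_cast
  rw [← mul_assoc, ← mul_assoc]

/-- Positive probability of absorption, uniformly in the starting point. -/
theorem exists_kappa {ν : Measure E} [ν.IsOpenPosMeasure] [SigmaFinite ν] {s : Set E}
    (hs : IsOpen s) (hsne : s.Nonempty) (hsf : ν s ≠ ⊤)
    (hst : Continuous fun p : E × X => st p.1 p.2) (hU : IsOpen U)
    (habs : ∀ q ∈ s, ∀ z ∈ U, st q z ∈ U) {X₀ K : Set X} (hK : IsCompact K) {N : ℕ}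
    (hred : ∀ z ∈ X₀, z ∈ U ∨ ∃ z' ∈ K, ∀ ω : Fin N → E, orbF st N ω z' ∈ U → orbF st N ω z ∈ U)
    (hctl : ∀ z ∈ K, ∃ ω : Fin N → E, (∀ k, ω k ∈ s) ∧ orbF st N ω z ∈ U) :
    ∃ κ : ℝ≥0∞, κ < 1 ∧ ∀ z ∈ X₀, gB (ν.restrict s) st U N z ≤ κ * (ν.restrict s) univ ^ N := by
  classical
  have hfm : IsFiniteMeasure (ν.restrict s) := ⟨by
    rw [Measure.restrict_apply_univ]; exact lt_top_iff_ne_top.2 hsf⟩
  set μ : Measure E := ν.restrict s with hμ
  set PP : Measure (Fin N → E) := Measure.pi fun _ : Fin N => μ with hPP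
  set Bx : Set (Fin N → E) := univ.pi fun _ => s with hBx
  have hBxo : IsOpen Bx := isOpen_set_pi finite_univ fun _ _ => hs
  have hpos : ∀ A : Set (Fin N → E), IsOpen A → A.Nonempty → A ⊆ Bx → 0 < PP A := by
    intro A hA hne hAB
    have h1 : PP A = (Measure.pi fun _ : Fin N => ν) A := by
      rw [hPP, hμ, ← Measure.restrict_pi_pi, Measure.restrict_apply hA.measurableSet,
        inter_eq_left.2 hAB]
    rw [h1]
    exact hA.measure_pos _ hne
  have hfin : PP univ ≠ ⊤ := measure_ne_top PP univ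
  have huniv : PP univ = μ univ ^ N := by
    rw [hPP, Measure.pi_univ]; simp
  -- local bound
  have hloc : ∀ z ∈ K, ∃ β : ℝ≥0∞, 0 < β ∧ ∃ V ∈ 𝓝 z, ∀ y ∈ V, β ≤ PP {ω | orbF st N ω y ∈ U} := by
    intro z hz
    obtain ⟨ω, hωs, hωU⟩ := hctl z hz
    have h1 : IsOpen {p : (Fin N → E) × X | p.1 ∈ Bx ∧ orbF st N p.1 p.2 ∈ U} :=
      (hBxo.preimage continuous_fst).inter (hU.preimage (orbF_continuous hst N))
    have h2 : (ω, z) ∈ {p : (Fin N → E) × X | p.1 ∈ Bx ∧ orbF st N p.1 p.2 ∈ U} :=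
      ⟨fun k _ => hωs k, hωU⟩
    obtain ⟨A, V, hA, hV, hωA, hzV, hAV⟩ := isOpen_prod_iff.1 h1 ω z h2
    refine ⟨PP (A ∩ Bx), hpos _ (hA.inter hBxo) ⟨ω, hωA, h2.1⟩ inter_subset_right, V,
      hV.mem_nhds hzV, fun y hy => measure_mono fun ω' hω' => ?_⟩
    exact (hAV (show (ω', y) ∈ A ×ˢ V from ⟨hω'.1, hy⟩)).2
  choose! β hβ V hV hβV using hloc
  obtain ⟨t, htK, ht⟩ := hK.elim_nhds_subcover V hV
  -- uniform bound
  obtain ⟨b, hb0, hbU, hb⟩ : ∃ b : ℝ≥0∞, 0 < b ∧ b ≤ PP univ ∧ ∀ z ∈ t, b ≤ β z := by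
    have huniv0 : 0 < PP univ := by
      have h1 := hpos Bx hBxo ⟨fun _ => hsne.some, fun _ _ => hsne.some_mem⟩ le_rfl
      exact h1.trans_le (measure_mono (subset_univ _))
    refine ⟨min (PP univ) (t.inf β), lt_min huniv0 ?_, min_le_left _ _, fun z hz =>
      (min_le_right _ _).trans (Finset.inf_le hz)⟩
    rw [Finset.lt_inf_iff ENNReal.zero_lt_top]
    exact fun z hz => hβ z (htK z hz)
  have hgood : ∀ z ∈ K, b ≤ PP {ω | orbF st N ω z ∈ U} := by
    intro z hz
    obtain ⟨y, hy, hzy⟩ := mem_iUnion₂.1 (ht hz)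
    exact (hb y hy).trans (hβV y (htK y hy) z hzy)
  have hPP0 : PP univ ≠ 0 := (hb0.trans_le hbU).ne'
  refine ⟨(PP univ - b) / PP univ, ?_, ?_⟩
  · rw [ENNReal.div_lt_iff (Or.inl hPP0) (Or.inl hfin), one_mul]
    exact ENNReal.sub_lt_self hfin hPP0 hb0.ne'
  · intro z hz
    rw [← huniv, ENNReal.div_mul_cancel hPP0 hfin]
    have haeU : ∀ᵐ q ∂μ, ∀ z ∈ U, st q z ∈ U := by
      rw [hμ, ae_restrict_iff' hs.measurableSet]
      exact Eventually.of_forall fun q hq => habs q hq
    rcases hred z hz with h | ⟨z', hz', h⟩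
    · rw [gB_zero_of_mem hst hU haeU N h]
      exact zero_le
    · have h1 : b ≤ PP {ω | orbF st N ω z ∈ U} :=
        (hgood z' hz').trans (measure_mono fun ω hω => h ω hω)
      have h2 : MeasurableSet {ω : Fin N → E | orbF st N ω z ∈ U} := by
        have h3 := (isClosed_bad (st := st) hst hU N z).measurableSet.compl
        refine (congrArg MeasurableSet ?_).mp h3
        ext ω
        simp
      have h4 : gB μ st U N z = PP univ - PP {ω | orbF st N ω z ∈ U} := by
        rw [← measure_compl h2 (measure_ne_top _ _)]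
        rfl
      rw [h4]
      exact tsub_le_tsub_left h1 _

end meas

end Pool.Agent.W739.PC
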