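import Mathlib
import Pool.Agent.W739.PC.Ms

/-! Exponential decay, with marked points which depend on the map. -/

set_option autoImplicit false
set_option linter.unusedSectionVars false

open Topology Filter Set MeasureTheory
open scoped ENNReal

namespace Pool.Agent.W739.PC

/-- exponential bound -/
theorem exp_bound {r : ℝ} (hr0 : 0 < r) (hr1 : r < 1) {N : ℕ} (hN : 0 < N) (K : ℕ) :
    ∃ C c : ℝ, 0 < c ∧ ∀ p : ℕ, ((p + 1 : ℕ) : ℝ) * K * r ^ (p / N) ≤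
      C * Real.exp (-c * ((p + 1 : ℕ) : ℝ)) := by
  have hN' : (0 : ℝ) < N := by exact_mod_cast hN
  set c : ℝ := -Real.log r / (2 * N) with hc
  have hlog : Real.log r < 0 := Real.log_neg hr0 hr1
  have hc0 : 0 < c := div_pos (by linarith) (by positivity)
  set ρ : ℝ := Real.exp (-c) with hρ
  have hρ0 : 0 < ρ := Real.exp_pos _
  have hρ1 : ρ < 1 := by rw [hρ, Real.exp_lt_one_iff]; linarith
  have hlim := tendsto_self_mul_const_pow_of_lt_one hρ0.le hρ1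
  obtain ⟨B, hB⟩ := hlim.bddAbove_range
  have hB' : ∀ p : ℕ, (p : ℝ) * ρ ^ p ≤ B := fun p => hB (mem_range_self p)
  have hkey : ∀ p : ℕ, r ^ (p / N) ≤ r⁻¹ * (ρ ^ p * ρ ^ p) := by
    intro p
    have h1 : ρ ^ p * ρ ^ p = Real.exp ((p : ℝ) / N * Real.log r) := by
      rw [hρ, ← Real.exp_nat_mul, ← Real.exp_add, hc]
      congr 1
      field_simp
      ring
    have h2 : (p : ℝ) / N < (p / N : ℕ) + 1 := by
      rw [div_lt_iff₀ hN']
      have := Nat.lt_div_mul_add hN (a := p)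
      have h3 : (p : ℝ) < ((p / N * N + N : ℕ) : ℝ) := by exact_mod_cast this
      push_cast at h3
      nlinarith
    rw [h1]
    have h4 : r ^ (p / N) = Real.exp ((p / N : ℕ) * Real.log r) := by
      rw [← Real.log_pow, Real.exp_log (by positivity)]
    have h5 : r⁻¹ = Real.exp (-Real.log r) := by rw [Real.exp_neg, Real.exp_log hr0]
    rw [h4, h5, ← Real.exp_add]
    apply Real.exp_le_exp.2
    nlinarith
  refine ⟨K * r⁻¹ * B * (ρ⁻¹ * ρ⁻¹), c, hc0, fun p => ?_⟩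
  have h6 : Real.exp (-c * ((p + 1 : ℕ) : ℝ)) = ρ ^ (p + 1) := by
    rw [hρ, ← Real.exp_nat_mul]; congr 1; ring
  rw [h6]
  have h7 : ρ ^ p * ρ ^ p = ρ⁻¹ * ρ⁻¹ * (ρ ^ (p + 1) * ρ ^ (p + 1)) := by
    rw [pow_succ]; field_simp
  calc ((p + 1 : ℕ) : ℝ) * K * r ^ (p / N)
      ≤ ((p + 1 : ℕ) : ℝ) * K * (r⁻¹ * (ρ ^ p * ρ ^ p)) := by
        gcongr; exact hkey p
    _ = K * r⁻¹ * (((p + 1 : ℕ) : ℝ) * ρ ^ (p + 1)) * (ρ⁻¹ * ρ⁻¹) * ρ ^ (p + 1) := by
        rw [h7]; ring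
    _ ≤ K * r⁻¹ * B * (ρ⁻¹ * ρ⁻¹) * ρ ^ (p + 1) := by
        gcongr
        exact hB' (p + 1)

variable {E X : Type} [TopologicalSpace E] [TopologicalSpace X]
  [MeasurableSpace E] [BorelSpace E] [SecondCountableTopology E]
  {μ : Measure E} [IsFiniteMeasure μ] {st : E → X → X} {U : Set X}

/-- the sequences with a marked point for the first map which is not absorbed -/
def BadZ (st : E → X → X) (U : Set X) (Z : Set (E × X)) (n : ℕ) : Set (Fin (n + 1) → E) :=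
  {ω | ∃ c, (ω 0, c) ∈ Z ∧ orbF st (n + 1) ω c ∉ U}

theorem measurable_badZ [SigmaCompactSpace X] (hst : Continuous fun p : E × X => st p.1 p.2)
    (hU : IsOpen U) {Z : Set (E × X)} (hZ : IsClosed Z) (n : ℕ) :
    MeasurableSet (BadZ st U Z n) := by
  have h1 : BadZ st U Z n = ⋃ k : ℕ, Prod.fst '' ({p : (Fin (n + 1) → E) × X |
      (p.1 0, p.2) ∈ Z ∧ orbF st (n + 1) p.1 p.2 ∉ U} ∩ (univ ×ˢ compactCovering X k)) := by
    ext ω
    simp only [BadZ, mem_ofPred_eq, mem_iUnion, mem_image, mem_inter_iff, mem_prod, mem_univ,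
      true_and, Prod.exists, exists_and_right, exists_eq_right]
    constructor
    · rintro ⟨c, h2, h3⟩
      have h4 : c ∈ ⋃ k, compactCovering X k := by rw [iUnion_compactCovering]; trivial
      obtain ⟨k, hk⟩ := mem_iUnion.1 h4
      exact ⟨k, c, ⟨h2, h3⟩, hk⟩
    · rintro ⟨k, c, ⟨h2, h3⟩, -⟩
      exact ⟨c, h2, h3⟩
  rw [h1]
  refine MeasurableSet.iUnion fun k => IsClosed.measurableSet ?_
  have h2 : IsClosed {p : (Fin (n + 1) → E) × X |
      (p.1 0, p.2) ∈ Z ∧ orbF st (n + 1) p.1 p.2 ∉ U} := by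
    refine IsClosed.inter ?_ ?_
    · have h3 : Continuous fun p : (Fin (n + 1) → E) × X => ((p.1 0, p.2) : E × X) :=
        ((continuous_apply 0).comp continuous_fst).prodMk continuous_snd
      exact hZ.preimage h3
    · exact (hU.preimage (orbF_continuous hst (n + 1))).isClosed_compl
  -- projection along a compact factor
  have hK : IsCompact (compactCovering X k) := isCompact_compactCovering X k
  rw [← isOpen_compl_iff, isOpen_iff_mem_nhds]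
  intro ω hω
  have h3 : ∀ c ∈ compactCovering X k, ∀ᶠ p : (Fin (n + 1) → E) × X in 𝓝 (ω, c),
      p ∉ {p : (Fin (n + 1) → E) × X | (p.1 0, p.2) ∈ Z ∧ orbF st (n + 1) p.1 p.2 ∉ U} := by
    intro c hc
    refine h2.isOpen_compl.mem_nhds fun h4 => hω ⟨(ω, c), ⟨h4, ⟨mem_univ _, hc⟩⟩, rfl⟩
  have h5 : ∀ᶠ ω' in 𝓝 ω, ∀ c ∈ compactCovering X k,
      (ω', c) ∉ {p : (Fin (n + 1) → E) × X | (p.1 0, p.2) ∈ Z ∧ orbF st (n + 1) p.1 p.2 ∉ U} := by
    refine hK.eventually_forall_of_forall_eventually fun c hc => ?_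
    exact h3 c hc
  filter_upwards [h5] with ω' hω' h6
  obtain ⟨⟨ω'', c⟩, ⟨h7, h8⟩, h9⟩ := h6
  rw [← h9] at hω'
  exact hω' c h8.2 h7

theorem badZ_le [SigmaCompactSpace X] (hst : Continuous fun p : E × X => st p.1 p.2)
    (hU : IsOpen U) (habs : ∀ᵐ q ∂μ, ∀ z ∈ U, st q z ∈ U) {X₀ : Set X}
    (hinv : ∀ᵐ q ∂μ, ∀ z ∈ X₀, st q z ∈ X₀)
    {N : ℕ} (hN0 : 0 < N) {κ : ℝ≥0∞} (hκ : κ ≠ ⊤)
    (hN : ∀ z ∈ X₀, gB μ st U N z ≤ κ * μ univ ^ N) {Z : Set (E × X)} (hZ : IsClosed Z) (K : ℕ)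
    (n : ℕ) (hF : ∀ᵐ q ∂μ, ∃ F : Finset X, F.card ≤ K ∧ (∀ c ∈ F, st q c ∈ X₀) ∧
      ∀ c, (q, c) ∈ Z → ∃ c' ∈ F, ∀ ω : Fin n → E, orbF st n ω (st q c') ∈ U →
        orbF st n ω (st q c) ∈ U) :
    (Measure.pi fun _ : Fin (n + 1) => μ) (BadZ st U Z n) ≤
      K * κ ^ (n / N) * μ univ ^ (n + 1) := by
  have h1 := measurePreserving_piFinSuccAbove (fun _ : Fin (n + 1) => μ) 0
  set e := MeasurableEquiv.piFinSuccAbove (fun _ : Fin (n + 1) => E) 0 with he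
  set S : Set (E × (Fin n → E)) := e.symm ⁻¹' (BadZ st U Z n) with hS
  have hSm : MeasurableSet S := e.symm.measurable (measurable_badZ hst hU hZ n)
  have h2 : BadZ st U Z n = e ⁻¹' S := by
    rw [hS, ← preimage_comp]
    simp
  rw [h2, h1.measure_preimage hSm.nullMeasurableSet, Measure.prod_apply hSm]
  have h3 : ∀ᵐ q ∂μ, (Measure.pi fun _ : Fin n => μ) (Prod.mk q ⁻¹' S) ≤
      K * (κ ^ (n / N) * μ univ ^ n) := by
    filter_upwards [hF] with q hq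
    obtain ⟨F, hFK, hFX, hFc⟩ := hq
    have h4 : Prod.mk q ⁻¹' S ⊆ ⋃ c ∈ F, {ω : Fin n → E | orbF st n ω (st q c) ∉ U} := by
      intro ω hω
      obtain ⟨c, hc, hcU⟩ := hω
      have e0 : (e.symm (q, ω)) 0 = q := rfl
      have e1 : orbF st (n + 1) (e.symm (q, ω)) c = orbF st n ω (st q c) := rfl
      rw [e1] at hcU
      obtain ⟨c', hc', h5⟩ := hFc c hc
      exact mem_iUnion₂.2 ⟨c', hc', fun h6 => hcU (h5 ω h6)⟩
    refine (measure_mono h4).trans ((measure_biUnion_finset_le _ _).trans ?_)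
    have h5 : ∀ c ∈ F, (Measure.pi fun _ : Fin n => μ) {ω | orbF st n ω (st q c) ∉ U} ≤
        κ ^ (n / N) * μ univ ^ n := by
      intro c hc
      exact gB_decay hst hU habs hinv hN0 hκ hN n (hFX c hc)
    refine (Finset.sum_le_card_nsmul _ _ _ h5).trans ?_
    rw [nsmul_eq_mul]
    gcongr
  refine (lintegral_mono_ae h3).trans ?_
  rw [lintegral_const, pow_succ]
  exact le_of_eq (by ring)

/-- Union bound over the starting times. -/
theorem bad_le' [SigmaCompactSpace X] (hst : Continuous fun p : E × X => st p.1 p.2)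
    (hU : IsOpen U) (habs : ∀ᵐ q ∂μ, ∀ z ∈ U, st q z ∈ U) {X₀ : Set X}
    (hinv : ∀ᵐ q ∂μ, ∀ z ∈ X₀, st q z ∈ X₀)
    {N : ℕ} (hN0 : 0 < N) {κ : ℝ≥0∞} (hκ : κ ≠ ⊤)
    (hN : ∀ z ∈ X₀, gB μ st U N z ≤ κ * μ univ ^ N) {Z : Set (E × X)} (hZ : IsClosed Z) (K : ℕ)
    (n : ℕ) (hF : ∀ᵐ q ∂μ, ∃ F : Finset X, F.card ≤ K ∧ (∀ c ∈ F, st q c ∈ X₀) ∧
      ∀ c, (q, c) ∈ Z → ∃ c' ∈ F, ∀ ω : Fin n → E, orbF st n ω (st q c') ∈ U →
        orbF st n ω (st q c) ∈ U) :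
    (Measure.pi fun _ : Fin (n + 1) => μ) {ω | ∃ i : Fin (n + 1), ∃ c, (ω i, c) ∈ Z ∧
      orbF st (n + 1) (ω ∘ Equiv.addRight i) c ∉ U} ≤
      ((n + 1 : ℕ) : ℝ≥0∞) * K * κ ^ (n / N) * μ univ ^ (n + 1) := by
  have h1 : {ω : Fin (n + 1) → E | ∃ i : Fin (n + 1), ∃ c, (ω i, c) ∈ Z ∧
      orbF st (n + 1) (ω ∘ Equiv.addRight i) c ∉ U} ⊆
      ⋃ i ∈ (Finset.univ : Finset (Fin (n + 1))),
        {ω | (ω ∘ Equiv.addRight i) ∈ BadZ st U Z n} := by
    rintro ω ⟨i, c, hc, hcU⟩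
    refine mem_iUnion₂.2 ⟨i, Finset.mem_univ _, c, ?_, hcU⟩
    show (ω (0 + i), c) ∈ Z
    rw [zero_add]
    exact hc
  refine (measure_mono h1).trans ((measure_biUnion_finset_le _ _).trans ?_)
  have h2 : ∀ i ∈ (Finset.univ : Finset (Fin (n + 1))), (Measure.pi fun _ : Fin (n + 1) => μ)
      {ω | (ω ∘ Equiv.addRight i) ∈ BadZ st U Z n} ≤ K * κ ^ (n / N) * μ univ ^ (n + 1) := by
    intro i _
    have h3 := measurePreserving_piCongrLeft (fun _ : Fin (n + 1) => μ) (Equiv.addRight i).symm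
    have h4 : {ω : Fin (n + 1) → E | (ω ∘ Equiv.addRight i) ∈ BadZ st U Z n} =
        (MeasurableEquiv.piCongrLeft (fun _ : Fin (n + 1) => E) (Equiv.addRight i).symm) ⁻¹'
          BadZ st U Z n := by
      ext ω
      simp only [mem_ofPred_eq, mem_preimage]
      have h5 : (MeasurableEquiv.piCongrLeft (fun _ : Fin (n + 1) => E)
          (Equiv.addRight i).symm) ω = ω ∘ Equiv.addRight i := by
        funext j
        have := MeasurableEquiv.piCongrLeft_apply_apply (β := fun _ : Fin (n + 1) => E)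
          (Equiv.addRight i).symm ω (Equiv.addRight i j)
        simpa using this
      rw [h5]
    rw [h4, h3.measure_preimage (measurable_badZ hst hU hZ n).nullMeasurableSet]
    exact badZ_le hst hU habs hinv hN0 hκ hN hZ K n hF
  refine (Finset.sum_le_card_nsmul _ _ _ h2).trans ?_
  rw [nsmul_eq_mul, Finset.card_univ, Fintype.card_fin, ← mul_assoc, ← mul_assoc]

/-- The final estimate in terms of a reference measure. -/
theorem final_le {ν : Measure E} [ν.IsOpenPosMeasure] [SigmaFinite ν] {s : Set E}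
    [SigmaCompactSpace X] (hs : IsOpen s) (hsf : ν s ≠ ⊤)
    (hst : Continuous fun p : E × X => st p.1 p.2) (hU : IsOpen U)
    (habs : ∀ q ∈ s, ∀ z ∈ U, st q z ∈ U) {X₀ : Set X} (hinv : ∀ q ∈ s, ∀ z ∈ X₀, st q z ∈ X₀)
    {N : ℕ} (hN0 : 0 < N) {κ : ℝ≥0∞} (hκ1 : κ < 1)
    (hN : ∀ z ∈ X₀, gB (ν.restrict s) st U N z ≤ κ * (ν.restrict s) univ ^ N)
    {Z : Set (E × X)} (hZ : IsClosed Z) (K : ℕ)
    (hF : ∀ q ∈ s, ∃ F : Finset X, F.card ≤ K ∧ (∀ c ∈ F, st q c ∈ X₀) ∧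
      ∀ c, (q, c) ∈ Z → ∃ c' ∈ F, ∀ (n : ℕ) (ω : Fin n → E), orbF st n ω (st q c') ∈ U →
        orbF st n ω (st q c) ∈ U) :
    ∃ C c : ℝ, 0 < c ∧ ∀ n : ℕ,
      (Measure.pi fun _ : Fin (n + 1) => ν) {ω | (∀ i, ω i ∈ s) ∧ ∃ i : Fin (n + 1), ∃ c,
        (ω i, c) ∈ Z ∧ orbF st (n + 1) (ω ∘ Equiv.addRight i) c ∉ U} ≤
      ENNReal.ofReal (C * Real.exp (-c * ((n + 1 : ℕ) : ℝ))) * ν s ^ (n + 1) := by
  have hfm : IsFiniteMeasure (ν.restrict s) := ⟨by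
    rw [Measure.restrict_apply_univ]; exact lt_top_iff_ne_top.2 hsf⟩
  have hae : ∀ {P : E → Prop}, (∀ q ∈ s, P q) → ∀ᵐ q ∂(ν.restrict s), P q := by
    intro P hP
    rw [ae_restrict_iff' hs.measurableSet]
    exact Eventually.of_forall hP
  set r : ℝ := max κ.toReal (1 / 2) with hr
  have hr0 : 0 < r := lt_max_of_lt_right (by norm_num)
  have hκt : κ ≠ ⊤ := (hκ1.trans ENNReal.one_lt_top).ne
  have hr1 : r < 1 := by
    refine max_lt ?_ (by norm_num)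
    have := (ENNReal.toReal_lt_toReal hκt ENNReal.one_ne_top).2 hκ1
    simpa using this
  have hκr : κ ≤ ENNReal.ofReal r := by
    rw [ENNReal.le_ofReal_iff_toReal_le hκt hr0.le]
    exact le_max_left _ _
  obtain ⟨C, c, hc, hC⟩ := exp_bound hr0 hr1 hN0 K
  refine ⟨C, c, hc, fun n => ?_⟩
  have hb := bad_le' (μ := ν.restrict s) (st := st) (U := U) hst hU (hae habs) (X₀ := X₀)
    (hae hinv) hN0 hκt hN hZ K n (hae fun q hq => by
      obtain ⟨F, h1, h2, h3⟩ := hF q hq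
      refine ⟨F, h1, h2, fun c hc => ?_⟩
      obtain ⟨c', hc', h4⟩ := h3 c hc
      exact ⟨c', hc', h4 n⟩)
  set Bad : Set (Fin (n + 1) → E) := {ω | ∃ i : Fin (n + 1), ∃ c, (ω i, c) ∈ Z ∧
      orbF st (n + 1) (ω ∘ Equiv.addRight i) c ∉ U} with hBad
  have hsub : {ω : Fin (n + 1) → E | (∀ i, ω i ∈ s) ∧ ∃ i : Fin (n + 1), ∃ c, (ω i, c) ∈ Z ∧
      orbF st (n + 1) (ω ∘ Equiv.addRight i) c ∉ U} ⊆ Bad ∩ univ.pi fun _ => s :=
    fun ω hω => ⟨hω.2, fun i _ => hω.1 i⟩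
  calc _ ≤ (Measure.pi fun _ : Fin (n + 1) => ν) (Bad ∩ univ.pi fun _ => s) := measure_mono hsub
    _ = (Measure.pi fun _ : Fin (n + 1) => ν.restrict s) Bad := by
        rw [← Measure.restrict_pi_pi,
          Measure.restrict_apply' (MeasurableSet.univ_pi fun _ => hs.measurableSet)]
    _ ≤ ((n + 1 : ℕ) : ℝ≥0∞) * K * κ ^ (n / N) * (ν.restrict s) univ ^ (n + 1) := hb
    _ ≤ _ := by
        rw [Measure.restrict_apply_univ]
        gcongr
        calc ((n + 1 : ℕ) : ℝ≥0∞) * K * κ ^ (n / N)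
            ≤ ((n + 1 : ℕ) : ℝ≥0∞) * K * (ENNReal.ofReal r) ^ (n / N) := by gcongr
          _ = ENNReal.ofReal (((n + 1 : ℕ) : ℝ) * K * r ^ (n / N)) := by
              rw [ENNReal.ofReal_mul (by positivity), ENNReal.ofReal_mul (by positivity),
                ENNReal.ofReal_pow hr0.le, ENNReal.ofReal_natCast, ENNReal.ofReal_natCast]
          _ ≤ _ := ENNReal.ofReal_le_ofReal (hC n)

end Pool.Agent.W739.PC
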