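import Mathlib
import Pool.Agent.W739.PC.Ms2

/-! Compositions of polynomials from an open set: almost all of them are hyperbolic. -/

set_option autoImplicit false

open Topology Filter Metric Set Polynomial MeasureTheory

namespace Pool.Agent.W739.PC

theorem cmp_period {X : Type} {g : ℕ → X → X} {p : ℕ} (h : ∀ k, g (k + p) = g k) (j : ℕ) (z : X) :
    cmp g (p * j) z = (cmp g p)^[j] z := by
  induction j generalizing z with
  | zero => rfl
  | succ j ih =>
    rw [show p * (j + 1) = p + p * j by ring, cmp_add, Function.iterate_succ_apply, ← ih]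
    exact cmp_congr (fun k _ => h k) _

/-- periodic extension -/
def ext {m : ℕ} {E : Type} (t : Fin (m + 1) → E) (k : ℕ) : E :=
  t ⟨k % (m + 1), Nat.mod_lt _ (Nat.succ_pos _)⟩

theorem ext_lt {m : ℕ} {E : Type} (t : Fin (m + 1) → E) (k : ℕ) (hk : k < m + 1) :
    ext t k = t ⟨k, hk⟩ := by
  unfold ext
  congr 1
  exact Fin.ext (Nat.mod_eq_of_lt hk)

theorem ext_period {m : ℕ} {E : Type} (t : Fin (m + 1) → E) (k : ℕ) :
    ext t (k + (m + 1)) = ext t k := by
  unfold ext
  congr 1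
  exact Fin.ext (Nat.add_mod_right _ _)

theorem ext_rot {m : ℕ} {E : Type} (t : Fin (m + 1) → E) (i : Fin (m + 1)) (k : ℕ)
    (hk : k < m + 1) : ext t (k + i) = (t ∘ Equiv.addRight i) ⟨k, hk⟩ := by
  unfold ext
  rw [Function.comp_apply, Equiv.coe_addRight]
  congr 1

namespace PolG

variable {E : Type} [TopologicalSpace E]

/-- one step -/
noncomputable def st (P : E → ℂ[X]) (q : E) (z : ℂ) : ℂ := (P q).eval z

/-- a continuous family of polynomials of degree `d`, which is closed under the addition of small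
constants -/
structure Fam (d : ℕ) (P : E → ℂ[X]) (O : Set E) : Prop where
  hd : 2 ≤ d
  cont : ∀ i, Continuous fun q => (P q).coeff i
  deg : ∀ q, (P q).natDegree ≤ d
  op : IsOpen O
  cpt : IsCompact (closure O)
  exact : ∀ q ∈ closure O, (P q).natDegree = d
  shift : ∀ q ∈ O, ∃ ρ : ℝ, 0 < ρ ∧ ∀ s : ℂ, ‖s‖ < ρ → ∃ q' ∈ O, P q' = P q + C s

variable {d : ℕ} {P : E → ℂ[X]} {O : Set E}

namespace Fam

theorem st_continuous (h : Fam d P O) : Continuous fun p : E × ℂ => st P p.1 p.2 := by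
  have e : (fun p : E × ℂ => st P p.1 p.2) = fun p : E × ℂ =>
      (∑ i ∈ Finset.range (d + 1), (P p.1).coeff i * p.2 ^ i) := by
    funext p
    unfold st
    rw [eval_eq_sum_range' (Nat.lt_succ_of_le (h.deg p.1))]
  rw [e]
  refine continuous_finsetSum _ fun i _ => Continuous.mul ?_ (continuous_snd.pow i)
  exact (h.cont i).comp continuous_fst

/-- the critical points -/
def Z (P : E → ℂ[X]) : Set (E × ℂ) := {p | (derivative (P p.1)).eval p.2 = 0}

theorem closed_Z (h : Fam d P O) : IsClosed (Z P) := by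
  have e : (fun p : E × ℂ => (derivative (P p.1)).eval p.2) = fun p : E × ℂ =>
      ∑ i ∈ Finset.range (d + 1), (P p.1).coeff (i + 1) * (i + 1) * p.2 ^ i := by
    funext p
    have h1 : (derivative (P p.1)).natDegree < d + 1 := by
      have := natDegree_derivative_le (P p.1)
      have := h.deg p.1
      omega
    rw [eval_eq_sum_range' h1]
    refine Finset.sum_congr rfl fun i _ => ?_
    rw [coeff_derivative]
  have h2 : Continuous fun p : E × ℂ => (derivative (P p.1)).eval p.2 := by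
    rw [e]
    refine continuous_finsetSum _ fun i _ => Continuous.mul (Continuous.mul ?_ ?_)
      (continuous_snd.pow i)
    · exact (h.cont (i + 1)).comp continuous_fst
    · exact continuous_const
  exact isClosed_eq h2 continuous_const

theorem escape (h : Fam d P O) :
    ∃ R : ℝ, 0 < R ∧ ∀ z : ℂ, R < ‖z‖ → ∀ q ∈ O, 2 * ‖z‖ ≤ ‖st P q z‖ := by
  rcases O.eq_empty_or_nonempty with hO | hO
  · exact ⟨1, one_pos, fun z _ q hq => by rw [hO] at hq; exact absurd hq (notMem_empty q)⟩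
  have hK : IsCompact (closure O) := h.cpt
  have hKne : (closure O).Nonempty := hO.closure
  have hc1 : Continuous fun q : E => ‖(P q).coeff d‖ := (h.cont d).norm
  obtain ⟨q₀, hq₀, hmin⟩ := hK.exists_isMinOn hKne hc1.continuousOn
  set δ : ℝ := ‖(P q₀).coeff d‖ with hδ
  have hδ0 : 0 < δ := by
    rw [hδ, norm_pos_iff]
    intro h0
    have h1 := h.exact q₀ hq₀
    have h2 : (P q₀).leadingCoeff = 0 := by rw [leadingCoeff, h1, h0]
    rw [leadingCoeff_eq_zero] at h2
    rw [h2, natDegree_zero] at h1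
    have := h.hd
    omega
  have hc2 : Continuous fun q : E => ∑ i ∈ Finset.range d, ‖(P q).coeff i‖ :=
    continuous_finsetSum _ fun i _ => (h.cont i).norm
  obtain ⟨M, hM⟩ := (hK.image hc2).bddAbove
  refine ⟨max 1 ((M + 2) / δ), lt_max_of_lt_left one_pos, fun z hz q hq => ?_⟩
  have hz1 : 1 ≤ ‖z‖ := (le_max_left _ _).trans hz.le
  have hz2 : M + 2 ≤ δ * ‖z‖ := by
    have := (le_max_right _ _).trans hz.le
    rw [div_le_iff₀ hδ0] at this
    linarith
  have hq' : q ∈ closure O := subset_closure hq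
  have h1 : δ ≤ ‖(P q).coeff d‖ := hmin hq'
  have h2 : ∑ i ∈ Finset.range d, ‖(P q).coeff i‖ ≤ M := hM (mem_image_of_mem _ hq')
  have hd := h.hd
  have hpw : ∀ i < d, ‖z‖ ^ i ≤ ‖z‖ ^ (d - 1) := fun i hi =>
    pow_le_pow_right₀ hz1 (by omega)
  have hp2 : ‖z‖ ≤ ‖z‖ ^ (d - 1) := by
    calc ‖z‖ = ‖z‖ ^ 1 := (pow_one _).symm
      _ ≤ _ := pow_le_pow_right₀ hz1 (by omega)
  have h3 : (P q).coeff d * z ^ d = st P q z - (∑ i ∈ Finset.range d, (P q).coeff i * z ^ i) := by
    unfold st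
    rw [eval_eq_sum_range' (Nat.lt_succ_of_le (h.deg q)), Finset.sum_range_succ]
    ring
  have h4 : ‖(P q).coeff d‖ * ‖z‖ ^ d ≤ ‖st P q z‖ + M * ‖z‖ ^ (d - 1) := by
    rw [← norm_pow, ← norm_mul, h3]
    have e2 := norm_sub_le (st P q z) (∑ i ∈ Finset.range d, (P q).coeff i * z ^ i)
    have e3 : ‖∑ i ∈ Finset.range d, (P q).coeff i * z ^ i‖ ≤
        (∑ i ∈ Finset.range d, ‖(P q).coeff i‖) * ‖z‖ ^ (d - 1) := by
      rw [Finset.sum_mul]
      refine (norm_sum_le _ _).trans (Finset.sum_le_sum fun i hi => ?_)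
      rw [norm_mul, norm_pow]
      exact mul_le_mul_of_nonneg_left (hpw i (Finset.mem_range.1 hi)) (norm_nonneg _)
    have e5 : (∑ i ∈ Finset.range d, ‖(P q).coeff i‖) * ‖z‖ ^ (d - 1) ≤
        M * ‖z‖ ^ (d - 1) := mul_le_mul_of_nonneg_right h2 (by positivity)
    linarith
  have h5 : δ * ‖z‖ * ‖z‖ ^ (d - 1) ≤ ‖(P q).coeff d‖ * ‖z‖ ^ d := by
    have e1 : ‖z‖ ^ d = ‖z‖ * ‖z‖ ^ (d - 1) := by
      rw [← pow_succ', Nat.sub_add_cancel (by omega)]
    rw [e1, ← mul_assoc]
    gcongr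
  have h6 : (M + 2) * ‖z‖ ^ (d - 1) ≤ δ * ‖z‖ * ‖z‖ ^ (d - 1) := by gcongr
  linarith

end Fam

/-- the points reached from `z` -/
def Rch (P : E → ℂ[X]) (O : Set E) (z : ℂ) : Set ℂ :=
  {w | ∃ m : ℕ, 0 < m ∧ ∃ a : ℕ → E, (∀ k, a k ∈ O) ∧ cmp (fun k => st P (a k)) m z = w}

theorem Rch_open (hO : ∀ q ∈ O, ∃ ρ : ℝ, 0 < ρ ∧ ∀ s : ℂ, ‖s‖ < ρ → ∃ q' ∈ O, P q' = P q + C s)
    (z : ℂ) : IsOpen (Rch P O z) := by
  rw [Metric.isOpen_iff]
  rintro w ⟨n, hn, a, ha, hw⟩
  obtain ⟨m, rfl⟩ : ∃ m, n = m + 1 := ⟨n - 1, by omega⟩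
  obtain ⟨ρ, hρ, hs⟩ := hO (a m) (ha m)
  refine ⟨ρ, hρ, fun w' hw' => ?_⟩
  rw [mem_ball, dist_eq_norm] at hw'
  obtain ⟨q', hq', hPq⟩ := hs (w' - w) hw'
  refine ⟨m + 1, hn, Function.update a m q', fun k => ?_, ?_⟩
  · rcases eq_or_ne k m with rfl | h
    · rw [Function.update_self]
      exact hq'
    · rw [Function.update_of_ne h]; exact ha k
  · rw [cmp_succ] at hw ⊢
    have e : cmp (fun k => st P (Function.update a m q' k)) m z =
        cmp (fun k => st P (a k)) m z := by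
      apply cmp_congr
      intro k hk
      rw [Function.update_of_ne (by omega)]
    rw [e]
    simp only [Function.update_self]
    unfold st at hw ⊢
    rw [hPq, eval_add, eval_C, hw]
    ring

theorem Rch_step {z w : ℂ} (hw : w ∈ Rch P O z) {q : E} (hq : q ∈ O) :
    st P q w ∈ Rch P O z := by
  obtain ⟨n, hn, a, ha, rfl⟩ := hw
  refine ⟨n + 1, by omega, Function.update a n q, fun k => ?_, ?_⟩
  · rcases eq_or_ne k n with rfl | h
    · rw [Function.update_self]; exact hq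
    · rw [Function.update_of_ne h]; exact ha k
  · rw [cmp_succ]
    have e : cmp (fun k => st P (Function.update a n q k)) n z = cmp (fun k => st P (a k)) n z := by
      apply cmp_congr
      intro k hk
      rw [Function.update_of_ne (by omega)]
    rw [e]
    simp only [Function.update_self]

/-- The set which absorbs all points. -/
theorem Fam.control (h : Fam d P O) (hne : O.Nonempty) :
    ∃ (R : ℝ) (U : Set ℂ) (N : ℕ), 0 < R ∧ 0 < N ∧ IsOpen U ∧
      (∀ z : ℂ, R < ‖z‖ → z ∈ U ∧ ∀ q ∈ O, 2 * ‖z‖ ≤ ‖st P q z‖) ∧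
      (∀ q ∈ O, ∀ z ∈ U, st P q z ∈ U) ∧
      (∀ z : ℂ, ∃ a : ℕ → E, (∀ k, a k ∈ O) ∧ cmp (fun k => st P (a k)) N z ∈ U) ∧
      ∀ z ∈ U, R < ‖z‖ ∨ ∃ W : Set ℂ, z ∈ W ∧ W ⊆ closedBall 0 R ∧
        ∀ w ∈ W, ∀ q ∈ O, st P q w ∈ W := by
  classical
  obtain ⟨R, hR, hesc⟩ := h.escape
  obtain ⟨q₀, hq₀⟩ := hne
  set V : ℂ → Set ℂ := fun z => if Rch P O z ⊆ closedBall 0 R then Rch P O z else {w | R < ‖w‖}
    with hV
  have hinf : ∀ z : ℂ, R < ‖z‖ → ∀ q ∈ O, R < ‖st P q z‖ := by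
    intro z hz q hq
    have := hesc z hz q hq
    linarith
  have hVo : ∀ z, IsOpen (V z) := by
    intro z
    simp only [hV]
    split_ifs
    · exact Rch_open h.shift z
    · exact isOpen_lt continuous_const continuous_norm
  have hVs : ∀ z, ∀ w ∈ V z, ∀ q ∈ O, st P q w ∈ V z := by
    intro z w hw q hq
    by_cases h : Rch P O z ⊆ closedBall 0 R
    · have e : V z = Rch P O z := if_pos h
      rw [e] at hw ⊢
      exact Rch_step hw hq
    · have e : V z = {w | R < ‖w‖} := if_neg h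
      rw [e] at hw ⊢
      exact hinf w hw q hq
  have hVr : ∀ z, ∃ m : ℕ, ∃ a : ℕ → E, (∀ k, a k ∈ O) ∧
      cmp (fun k => st P (a k)) m z ∈ V z := by
    intro z
    by_cases h : Rch P O z ⊆ closedBall 0 R
    · have e : V z = Rch P O z := if_pos h
      rw [e]
      exact ⟨1, fun _ => q₀, fun _ => hq₀, 1, one_pos, fun _ => q₀, fun _ => hq₀, rfl⟩
    · have e : V z = {w | R < ‖w‖} := if_neg h
      rw [e]
      obtain ⟨w, ⟨m, -, a, ha, rfl⟩, hw⟩ := not_subset.1 h
      refine ⟨m, a, ha, ?_⟩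
      rw [mem_closedBall_zero_iff, not_le] at hw
      exact hw
  choose m a ha haV using hVr
  have hcont : ∀ (a : ℕ → E) (m : ℕ), Continuous (cmp (fun k => st P (a k)) m) := by
    intro a m
    induction m with
    | zero => exact continuous_id
    | succ m ih =>
      exact h.st_continuous.comp (continuous_const.prodMk ih)
  obtain ⟨s, -, hs⟩ := (isCompact_closedBall (0 : ℂ) R).elim_nhds_subcover
    (fun z => (cmp (fun k => st P (a z k)) (m z)) ⁻¹' V z)
    (fun z _ => ((hVo z).preimage (hcont _ _)).mem_nhds (haV z))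
  have habs : ∀ q ∈ O, ∀ w ∈ {w | R < ‖w‖} ∪ ⋃ z ∈ s, V z,
      st P q w ∈ {w | R < ‖w‖} ∪ ⋃ z ∈ s, V z := by
    rintro q hq w (hw | hw)
    · exact Or.inl (hinf w hw q hq)
    · obtain ⟨z, hz, hw⟩ := mem_iUnion₂.1 hw
      exact Or.inr (mem_iUnion₂.2 ⟨z, hz, hVs z w hw q hq⟩)
  refine ⟨R, {w | R < ‖w‖} ∪ ⋃ z ∈ s, V z, s.sup m + 1, hR, Nat.succ_pos _, ?_, ?_, habs, ?_, ?_⟩
  · exact (isOpen_lt continuous_const continuous_norm).union
      (isOpen_biUnion fun z _ => hVo z)
  · exact fun z hz => ⟨Or.inl hz, hesc z hz⟩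
  · intro y
    rcases lt_or_ge R ‖y‖ with hy | hy
    · refine ⟨fun _ => q₀, fun _ => hq₀, ?_⟩
      exact cmp_abs (fun k z hz => habs q₀ hq₀ z hz) (Or.inl hy) _
    · obtain ⟨z, hz, hzy⟩ := mem_iUnion₂.1 (hs (mem_closedBall_zero_iff.2 hy))
      refine ⟨a z, ha z, ?_⟩
      refine cmp_abs_le (fun k w hw => habs _ (ha z k) w hw) (m := m z) ?_ ?_
      · exact (Finset.le_sup hz).trans (Nat.le_succ _)
      · exact Or.inr (mem_iUnion₂.2 ⟨z, hz, hzy⟩)
  · rintro w (hw | hw)
    · exact Or.inl hw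
    · obtain ⟨z, hz, hw⟩ := mem_iUnion₂.1 hw
      by_cases h : Rch P O z ⊆ closedBall 0 R
      · right
        have e : V z = Rch P O z := if_pos h
        rw [e] at hw
        exact ⟨Rch P O z, hw, h, fun v hv q hq => Rch_step hv hq⟩
      · left
        have e : V z = {w | R < ‖w‖} := if_neg h
        rw [e] at hw
        exact hw

/-- the composition `f (p - 1) ∘ ... ∘ f 0` -/
noncomputable def compose : (p : ℕ) → (Fin p → ℂ[X]) → ℂ[X]
  | 0, _ => X
  | p + 1, f => (f (Fin.last p)).comp (compose p fun i => f i.castSucc)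

theorem compose_eval (p : ℕ) (f : Fin p → ℂ[X]) (a : ℕ → ℂ[X])
    (h : ∀ (k : ℕ) (hk : k < p), a k = f ⟨k, hk⟩) (z : ℂ) :
    (compose p f).eval z = cmp (fun k z => (a k).eval z) p z := by
  induction p generalizing z with
  | zero => exact eval_X
  | succ p ih =>
    rw [compose, eval_comp, ih (fun i => f i.castSucc) (fun k hk => by
      rw [h k (by omega)]; rfl), cmp_succ, h p (by omega)]
    rfl

theorem compose_crit (p : ℕ) (f : Fin p → ℂ[X]) (a : ℕ → ℂ[X])
    (h : ∀ (k : ℕ) (hk : k < p), a k = f ⟨k, hk⟩) (z : ℂ)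
    (hz : (derivative (compose p f)).eval z = 0) :
    ∃ k < p, (derivative (a k)).eval (cmp (fun k z => (a k).eval z) k z) = 0 := by
  induction p generalizing z with
  | zero => rw [compose] at hz; simp at hz
  | succ p ih =>
    rw [compose, derivative_comp, eval_mul, mul_eq_zero] at hz
    have h' : ∀ (k : ℕ) (hk : k < p), a k = (fun i : Fin p => f i.castSucc) ⟨k, hk⟩ := by
      intro k hk; rw [h k (by omega)]; rfl
    rcases hz with hz | hz
    · obtain ⟨k, hk, hk'⟩ := ih _ h' z hz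
      exact ⟨k, by omega, hk'⟩
    · refine ⟨p, by omega, ?_⟩
      rw [eval_comp, compose_eval p _ a h'] at hz
      rw [h p (by omega)]
      exact hz

/-- `z` escapes or is attracted by a sink of `F` -/
def Good (F : ℂ → ℂ) (z : ℂ) : Prop :=
  Tendsto (fun k : ℕ => ‖F^[k] z‖) atTop atTop ∨
    ∃ n : ℕ, 0 < n ∧ ∃ x : ℂ, F^[n] x = x ∧ ‖deriv (F^[n]) x‖ < 1 ∧
      Tendsto (fun k : ℕ => F^[n * k] z) atTop (𝓝 x)

theorem good_of_mem
    (hO : ∀ q ∈ O, ∃ ρ : ℝ, 0 < ρ ∧ ∀ s : ℂ, ‖s‖ < ρ → ∃ q' ∈ O, P q' = P q + C s) {R : ℝ} {U : Set ℂ} (hR : 0 < R)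
    (h1 : ∀ z : ℂ, R < ‖z‖ → z ∈ U ∧ ∀ q ∈ O, 2 * ‖z‖ ≤ ‖st P q z‖)
    (h2 : ∀ q ∈ O, ∀ z ∈ U, st P q z ∈ U)
    (h4 : ∀ z ∈ U, R < ‖z‖ ∨ ∃ W : Set ℂ, z ∈ W ∧ W ⊆ closedBall 0 R ∧
        ∀ w ∈ W, ∀ q ∈ O, st P q w ∈ W)
    {m : ℕ} (t : Fin (m + 1) → E) (ht : ∀ i, t i ∈ O) {z : ℂ} {l : ℕ}
    (hz : cmp (fun k => st P (ext t k)) l z ∈ U) :
    Good (fun w => (compose (m + 1) fun i => P (t i)).eval w) z := by
  set F : ℂ → ℂ := fun w => (compose (m + 1) fun i => P (t i)).eval w with hF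
  set g : ℕ → ℂ → ℂ := fun k => st P (ext t k) with hg
  have ha : ∀ k, ext t k ∈ O := fun k => ht _
  have hFg : F = cmp g (m + 1) := by
    funext w
    exact compose_eval (m + 1) _ (fun k => P (ext t k)) (fun k hk => by rw [ext_lt t k hk]) w
  have hper : ∀ (j : ℕ) (w : ℂ), F^[j] w = cmp g ((m + 1) * j) w := by
    intro j w
    rw [hFg, cmp_period]
    intro k
    show st P (ext t (k + (m + 1))) = _
    rw [ext_period]
  have hw : F^[l] z ∈ U := by
    rw [hper]
    refine cmp_abs_le (fun k w hw => h2 _ (ha k) w hw) (m := l) ?_ hz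
    exact Nat.le_mul_of_pos_left l (Nat.succ_pos m)
  rcases h4 _ hw with h | ⟨W, hwW, hWR, hW⟩
  · -- escape
    left
    have hk : ∀ (k : ℕ) (w : ℂ), R < ‖w‖ → 2 ^ k * ‖w‖ ≤ ‖cmp g k w‖ := by
      intro k w hw
      induction k with
      | zero => rw [pow_zero, one_mul]; exact le_rfl
      | succ k ih =>
        have e1 : ‖w‖ ≤ 2 ^ k * ‖w‖ := by
          have : (1 : ℝ) ≤ 2 ^ k := one_le_pow₀ (by norm_num)
          nlinarith [norm_nonneg w]
        have e2 := (h1 (cmp g k w) (by linarith)).2 _ (ha k)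
        rw [cmp_succ]
        calc 2 ^ (k + 1) * ‖w‖ = 2 * (2 ^ k * ‖w‖) := by ring
          _ ≤ 2 * ‖cmp g k w‖ := by gcongr
          _ ≤ _ := e2
    have hlim : Tendsto (fun k : ℕ => ‖F^[k + l] z‖) atTop atTop := by
      refine tendsto_atTop_mono (f := fun k : ℕ => (2 : ℝ) ^ k * ‖F^[l] z‖) (fun k => ?_) ?_
      · rw [Function.iterate_add_apply, hper k]
        refine le_trans ?_ (hk ((m + 1) * k) _ h)
        gcongr
        · norm_num
        · exact Nat.le_mul_of_pos_left k (Nat.succ_pos m)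
      · exact (tendsto_pow_atTop_atTop_of_one_lt (by norm_num)).atTop_mul_const (by linarith)
    exact (tendsto_add_atTop_iff_nat (f := fun k : ℕ => ‖F^[k] z‖) l).1 hlim
  · -- trapped
    right
    obtain ⟨ρ, hρ, hs⟩ := hO _ (ha m)
    have hFW : ∀ w ∈ W, ∀ k, cmp g k w ∈ W := by
      intro w hw k
      exact cmp_abs (fun k v hv => hW v hv _ (ha k)) hw k
    have hT : Trap W F R ρ := by
      refine ⟨hR, hρ, hWR, fun ζ _ => (compose (m + 1) fun i => P (t i)).differentiable ζ, ?_⟩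
      intro ζ hζ s hs'
      obtain ⟨q', hq', hPq⟩ := hs s hs'
      have e1 : F ζ + s = st P q' (cmp g m ζ) := by
        rw [hFg, cmp_succ]
        show (P _).eval _ + s = (P _).eval _
        rw [hPq, eval_add, eval_C]
      rw [e1]
      exact hW _ (hFW ζ hζ m) _ hq'
    obtain ⟨q, a, hq, hlim, hatt⟩ := hT.exists_att hwW
    obtain ⟨q', rfl⟩ : ∃ q', q = q' + 1 := ⟨q - 1, by omega⟩
    refine ⟨q' + 1, hq, F^[l * q'] a, (hatt _).per, (hatt _).mul, ?_⟩
    have hFc : Continuous F := (compose (m + 1) fun i => P (t i)).continuous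
    have e2 : Tendsto (fun k : ℕ => F^[l * q'] (F^[(q' + 1) * k] (F^[l] z))) atTop
        (𝓝 (F^[l * q'] a)) :=
      ((hFc.iterate (l * q')).continuousAt.tendsto).comp hlim
    have e3 : Tendsto (fun k : ℕ => F^[(q' + 1) * (k + l)] z) atTop (𝓝 (F^[l * q'] a)) := by
      refine e2.congr fun k => ?_
      rw [← Function.iterate_add_apply, ← Function.iterate_add_apply]
      congr 2
      ring
    exact (tendsto_add_atTop_iff_nat (f := fun k : ℕ => F^[(q' + 1) * k] z) l).1 e3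

theorem Fam.main [MeasurableSpace E] [BorelSpace E] [SecondCountableTopology E] {ν : Measure E}
    [ν.IsOpenPosMeasure] [SigmaFinite ν] (h : Fam d P O) (hfin : ν O ≠ ⊤) :
    ∃ C c : ℝ, 0 < c ∧ ∀ p : ℕ,
      (Measure.pi fun _ : Fin p => ν) {t : Fin p → E | (∀ i, t i ∈ O) ∧ ¬ ∀ z : ℂ,
        (derivative (compose p fun i => P (t i))).eval z = 0 →
          Good (fun w => (compose p fun i => P (t i)).eval w) z} ≤
      ENNReal.ofReal (C * Real.exp (-c * p)) * ν O ^ p := by
  classical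
  -- the empty composition
  have h0 : {t : Fin 0 → E | (∀ i, t i ∈ O) ∧ ¬ ∀ z : ℂ,
      (derivative (compose 0 fun i => P (t i))).eval z = 0 →
        Good (fun w => (compose 0 fun i => P (t i)).eval w) z} = ∅ := by
    ext t
    simp only [mem_ofPred_eq, mem_empty_iff_false, iff_false, not_and, not_not]
    intro _ z hz
    rw [compose] at hz
    simp at hz
  rcases O.eq_empty_or_nonempty with hO | hne
  · refine ⟨1, 1, one_pos, fun p => ?_⟩
    rcases p with _ | p
    · rw [h0, measure_empty]; exact zero_le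
    · have : {t : Fin (p + 1) → E | (∀ i, t i ∈ O) ∧ ¬ ∀ z : ℂ,
          (derivative (compose (p + 1) fun i => P (t i))).eval z = 0 →
            Good (fun w => (compose (p + 1) fun i => P (t i)).eval w) z} = ∅ := by
        ext t
        simp only [mem_ofPred_eq, mem_empty_iff_false, iff_false, not_and]
        intro h1
        have := h1 0
        rw [hO] at this
        exact absurd this (notMem_empty _)
      rw [this, measure_empty]; exact zero_le
  obtain ⟨R, U, N, hR, hN, hU, h1, h2, h3, h4⟩ := h.control hne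
  obtain ⟨κ, hκ1, hκ⟩ := exists_kappa (ν := ν) (s := O)
    (X₀ := univ) (K := closedBall (0 : ℂ) R) (st := st P) (N := N) (U := U) h.op
    hne hfin h.st_continuous hU h2 (isCompact_closedBall _ _)
    (fun z _ => by
      rcases lt_or_ge R ‖z‖ with h | h
      · exact Or.inl (h1 z h).1
      · exact Or.inr ⟨z, mem_closedBall_zero_iff.2 h, fun ω hω => hω⟩)
    (fun z _ => by
      obtain ⟨a, ha, haU⟩ := h3 z
      refine ⟨fun k => a k, fun k => ha k, ?_⟩
      rw [orbF_eq (st P) N (fun k : Fin N => a k) a (fun k hk => rfl)]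
      exact haU)
  obtain ⟨C, c, hc, hC⟩ := final_le (ν := ν) (s := O) (X₀ := univ)
    h.op hfin h.st_continuous hU h2 (fun q _ z _ => mem_univ _) hN hκ1 hκ h.closed_Z d
    (fun q hq => by
      have hq1 : (P q).natDegree = d := h.exact q (subset_closure hq)
      have hne0 : derivative (P q) ≠ 0 := by
        intro h5
        rw [derivative_eq_zero] at h5
        have := h.hd
        omega
      refine ⟨(derivative (P q)).roots.toFinset, ?_, fun _ _ => mem_univ _, fun c hc =>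
        ⟨c, ?_, fun n ω hω => hω⟩⟩
      · calc _ ≤ Multiset.card (derivative (P q)).roots := Multiset.toFinset_card_le _
          _ ≤ (derivative (P q)).natDegree := card_roots' _
          _ ≤ d := (natDegree_derivative_le _).trans (by omega)
      · rw [Multiset.mem_toFinset, mem_roots hne0]
        exact hc)
  refine ⟨C, c, hc, fun p => ?_⟩
  rcases p with _ | m
  · rw [h0, measure_empty]; exact zero_le
  · refine (measure_mono ?_).trans (hC m)
    rintro t ⟨ht, hnot⟩
    refine ⟨ht, ?_⟩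
    by_contra hbad
    apply hnot
    intro z hz
    obtain ⟨k, hk, hk0⟩ := compose_crit (m + 1) _ (fun k => P (ext t k))
      (fun k hk => by rw [ext_lt t k hk]) z hz
    set c : ℂ := cmp (fun k => st P (ext t k)) k z with hcdef
    have h5 : orbF (st P) (m + 1) (t ∘ Equiv.addRight (⟨k, hk⟩ : Fin (m + 1))) c ∈ U := by
      by_contra h6
      refine hbad ⟨⟨k, hk⟩, c, ?_, h6⟩
      rw [ext_lt t k hk] at hk0
      exact hk0
    rw [orbF_eq (st P) (m + 1) _ (fun l => ext t (l + k)) (fun l hl => by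
      exact ext_rot t ⟨k, hk⟩ l hl)] at h5
    have h6 : cmp (fun k => st P (ext t k)) (k + (m + 1)) z ∈ U := by
      rw [cmp_add]
      exact h5
    exact good_of_mem h.shift hR h1 h2 h4 t ht h6

end PolG

end Pool.Agent.W739.PC
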