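import Mathlib
import Pool.Agent.W739.PC.PolG

/-! The family of the compositions of `p` perturbed polynomials. -/

set_option autoImplicit false

open Topology Filter Metric Set Polynomial MeasureTheory

namespace Pool.Agent.W739.PC.PolG

variable {E : Type} [TopologicalSpace E]

theorem cont_pow {B : E → ℂ[X]} (hB : ∀ i, Continuous fun q => (B q).coeff i) (k : ℕ) :
    ∀ i, Continuous fun q => ((B q) ^ k).coeff i := by
  induction k with
  | zero =>
    intro i
    simp only [pow_zero]
    exact continuous_const
  | succ k ih =>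
    intro i
    simp only [pow_succ, coeff_mul]
    exact continuous_finsetSum _ fun x _ => (ih x.1).mul (hB x.2)

theorem cont_comp {A B : E → ℂ[X]} (hA : ∀ i, Continuous fun q => (A q).coeff i)
    (hB : ∀ i, Continuous fun q => (B q).coeff i) {a : ℕ} (ha : ∀ q, (A q).natDegree ≤ a) :
    ∀ i, Continuous fun q => ((A q).comp (B q)).coeff i := by
  intro i
  have e : (fun q => ((A q).comp (B q)).coeff i) = fun q =>
      ∑ k ∈ Finset.range (a + 1), (A q).coeff k * ((B q) ^ k).coeff i := by
    funext q
    rw [Polynomial.comp, eval₂_eq_sum_range' C (Nat.lt_succ_of_le (ha q)), finset_sum_coeff]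
    exact Finset.sum_congr rfl fun k _ => coeff_C_mul _
  rw [e]
  exact continuous_finsetSum _ fun k _ => (hA k).mul (cont_pow hB k i)

theorem cont_compose (p : ℕ) (f : E → Fin p → ℂ[X])
    (hf : ∀ j i, Continuous fun q => (f q j).coeff i) {a : ℕ} (ha : ∀ q j, (f q j).natDegree ≤ a) :
    ∀ i, Continuous fun q => (compose p (f q)).coeff i := by
  induction p with
  | zero =>
    intro i
    exact continuous_const
  | succ p ih =>
    have h1 := ih (fun q j => f q j.castSucc) (fun j i => hf _ i) (fun q j => ha q _)
    exact cont_comp (A := fun q => f q (Fin.last p)) (hf _) h1 (fun q => ha q _)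

theorem natDegree_compose (p : ℕ) (f : Fin p → ℂ[X]) :
    (compose p f).natDegree = ∏ j, (f j).natDegree := by
  induction p with
  | zero => simp [compose]
  | succ p ih =>
    rw [compose, natDegree_comp, ih, Fin.prod_univ_castSucc, mul_comm]

/-- the family of compositions -/
theorem fam_compose {p : ℕ} (hp : 1 ≤ p) (T : Fin p → ℂ[X]) (hT : ∀ j, 2 ≤ (T j).natDegree)
    {ε : ℝ} (hε : 0 < ε) :
    Fam (∏ j, (T j).natDegree) (fun t : Fin p → ℂ => compose p fun j => T j + C (t j))
      {t | ∀ j, ‖t j‖ < ε} := by
  have hset : {t : Fin p → ℂ | ∀ j, ‖t j‖ < ε} = ball 0 ε := by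
    ext t
    rw [mem_ball_zero_iff, pi_norm_lt_iff hε]
    rfl
  have hdeg : ∀ t : Fin p → ℂ, (compose p fun j => T j + C (t j)).natDegree =
      ∏ j, (T j).natDegree := by
    intro t
    rw [natDegree_compose]
    exact Finset.prod_congr rfl fun j _ => natDegree_add_C
  refine ⟨?_, ?_, fun q => (hdeg q).le, ?_, ?_, fun q _ => hdeg q, ?_⟩
  · obtain ⟨m, rfl⟩ : ∃ m, p = m + 1 := ⟨p - 1, by omega⟩
    calc 2 ≤ 2 ^ (m + 1) := by
          have : 1 ≤ 2 ^ m := Nat.one_le_two_pow
          rw [pow_succ]; omega
      _ = ∏ j : Fin (m + 1), 2 := by simp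
      _ ≤ _ := Finset.prod_le_prod' fun j _ => hT j
  · refine cont_compose p _ ?_ (a := ∑ j, (T j).natDegree) ?_
    · intro j i
      simp only [coeff_add, coeff_C]
      refine continuous_const.add ?_
      split_ifs
      · exact continuous_apply j
      · exact continuous_const
    · intro q j
      rw [natDegree_add_C]
      exact Finset.single_le_sum (f := fun j => (T j).natDegree) (fun _ _ => Nat.zero_le _)
        (Finset.mem_univ j)
  · rw [hset]; exact isOpen_ball
  · rw [hset]
    exact isBounded_ball.isCompact_closure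
  · intro t ht
    obtain ⟨m, rfl⟩ : ∃ m, p = m + 1 := ⟨p - 1, by omega⟩
    refine ⟨ε - ‖t (Fin.last m)‖, by linarith [ht (Fin.last m)], fun s hs => ?_⟩
    refine ⟨Function.update t (Fin.last m) (t (Fin.last m) + s), fun j => ?_, ?_⟩
    · rcases eq_or_ne j (Fin.last m) with rfl | h
      · rw [Function.update_self]
        linarith [norm_add_le (t (Fin.last m)) s]
      · rw [Function.update_of_ne h]; exact ht j
    · show (T (Fin.last m) + C _).comp _ = (T (Fin.last m) + C _).comp _ + C s
      rw [Function.update_self]
      have e : (compose m fun i => T i.castSucc +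
          C (Function.update t (Fin.last m) (t (Fin.last m) + s) i.castSucc)) =
          compose m fun i => T i.castSucc + C (t i.castSucc) := by
        congr 1
        funext i
        rw [Function.update_of_ne (Fin.castSucc_lt_last i).ne]
      rw [e]
      simp only [add_comp, C_comp, C_add]
      ring

end Pool.Agent.W739.PC.PolG
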